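import Mathlib

set_option autoImplicit false
open Matrix

namespace Pool.Agent.H985.CoxA

/-- The quadratic form `pq + qr + rp`. -/
noncomputable def Q (x : Fin 3 → ℝ) : ℝ := x 0 * x 1 + x 1 * x 2 + x 2 * x 0

/-- The sum of the coordinates. -/
noncomputable def S (x : Fin 3 → ℝ) : ℝ := x 0 + x 1 + x 2

/-- The open cone. -/
def C : Set (Fin 3 → ℝ) := {x | 0 < Q x ∧ 0 < S x}

lemma mem_C (x : Fin 3 → ℝ) : x ∈ C ↔ 0 < Q x ∧ 0 < S x := Iff.rfl

lemma continuous_Q : Continuous Q := by unfold Q; fun_prop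
lemma continuous_S : Continuous S := by unfold S; fun_prop

lemma isOpen_C : IsOpen C :=
  (isOpen_lt continuous_const continuous_Q).inter (isOpen_lt continuous_const continuous_S)

lemma closure_C : closure C ⊆ {x | 0 ≤ Q x ∧ 0 ≤ S x} := by
  apply closure_minimal
  · intro x hx
    exact ⟨hx.1.le, hx.2.le⟩
  · exact (isClosed_le continuous_const continuous_Q).inter
      (isClosed_le continuous_const continuous_S)

/-- Polar form. -/
noncomputable def Bf (x y : Fin 3 → ℝ) : ℝ :=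
  x 0 * y 1 + x 1 * y 0 + x 1 * y 2 + x 2 * y 1 + x 2 * y 0 + x 0 * y 2

lemma Bf_pos_aux {a b c a' b' c' : ℝ} (hx1 : 0 < a * b + b * c + c * a) (hx2 : 0 < a + b + c)
    (hy1 : 0 < a' * b' + b' * c' + c' * a') (hy2 : 0 < a' + b' + c') :
    0 < a * b' + b * a' + b * c' + c * b' + c * a' + a * c' := by
  by_contra hcon
  push Not at hcon
  obtain ⟨R, hR⟩ : ∃ R, R = a * b' + b * a' + b * c' + c * b' + c * a' + a * c' := ⟨_, rfl⟩
  rw [← hR] at hcon
  obtain ⟨Nxy, hN⟩ : ∃ N, N = (a * a' + b * b' + c * c') - R / 2 := ⟨_, rfl⟩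
  have h1 : (a + b + c) * (a' + b' + c') ≤ Nxy := by
    have e : (a + b + c) * (a' + b' + c') = (a * a' + b * b' + c * c') + R := by rw [hR]; ring
    rw [e, hN]; linarith
  have hpos : 0 < (a + b + c) * (a' + b' + c') := mul_pos hx2 hy2
  have h2 : ((a + b + c) * (a' + b' + c')) ^ 2 ≤ Nxy ^ 2 :=
    pow_le_pow_left₀ hpos.le h1 2
  have hNx : a^2+b^2+c^2 - (a*b+b*c+c*a) < (a+b+c)^2 := by
    have e : (a+b+c)^2 = a^2+b^2+c^2 + 2*(a*b+b*c+c*a) := by ring
    rw [e]; linarith
  have hNy : a'^2+b'^2+c'^2 - (a'*b'+b'*c'+c'*a') < (a'+b'+c')^2 := by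
    have e : (a'+b'+c')^2 = a'^2+b'^2+c'^2 + 2*(a'*b'+b'*c'+c'*a') := by ring
    rw [e]; linarith
  have hNx0 : 0 ≤ a^2+b^2+c^2 - (a*b+b*c+c*a) := by
    have e : a^2+b^2+c^2 - (a*b+b*c+c*a) = ((a-b)^2+(b-c)^2+(c-a)^2)/2 := by ring
    rw [e]; positivity
  have hNy0 : 0 ≤ a'^2+b'^2+c'^2 - (a'*b'+b'*c'+c'*a') := by
    have e : a'^2+b'^2+c'^2 - (a'*b'+b'*c'+c'*a') = ((a'-b')^2+(b'-c')^2+(c'-a')^2)/2 := by ring
    rw [e]; positivity
  have h3 : Nxy ^ 2 ≤ (a^2+b^2+c^2 - (a*b+b*c+c*a)) * (a'^2+b'^2+c'^2 - (a'*b'+b'*c'+c'*a')) := by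
    have e : (a^2+b^2+c^2 - (a*b+b*c+c*a)) * (a'^2+b'^2+c'^2 - (a'*b'+b'*c'+c'*a')) =
      Nxy ^ 2 + (3/4) * ((a-b)*(b'-c') - (a'-b')*(b-c))^2 := by
      rw [hN, hR]; ring
    rw [e]
    have : 0 ≤ (3/4 : ℝ) * ((a-b)*(b'-c') - (a'-b')*(b-c))^2 := by positivity
    linarith
  have h4 : (a^2+b^2+c^2 - (a*b+b*c+c*a)) * (a'^2+b'^2+c'^2 - (a'*b'+b'*c'+c'*a'))
      < (a+b+c)^2 * (a'+b'+c')^2 := by
    apply mul_lt_mul'' hNx hNy hNx0 hNy0
  rw [mul_pow] at h2
  linarith

lemma Bf_pos {x y : Fin 3 → ℝ} (hx : x ∈ C) (hy : y ∈ C) : 0 < Bf x y := by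
  obtain ⟨hx1, hx2⟩ := hx
  obtain ⟨hy1, hy2⟩ := hy
  exact Bf_pos_aux hx1 hx2 hy1 hy2

lemma Q_comb (a b : ℝ) (x y : Fin 3 → ℝ) :
    Q (a • x + b • y) = a^2 * Q x + b^2 * Q y + a * b * Bf x y := by
  simp only [Q, Bf, Pi.add_apply, Pi.smul_apply, smul_eq_mul]; ring

lemma S_comb (a b : ℝ) (x y : Fin 3 → ℝ) :
    S (a • x + b • y) = a * S x + b * S y := by
  simp only [S, Pi.add_apply, Pi.smul_apply, smul_eq_mul]; ring

lemma comb_mem {a b : ℝ} (ha : 0 ≤ a) (hb : 0 ≤ b) (hab : 0 < a + b) {x y : Fin 3 → ℝ}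
    (hx : x ∈ C) (hy : y ∈ C) : a • x + b • y ∈ C := by
  have hB := Bf_pos hx hy
  rw [mem_C, Q_comb, S_comb]
  obtain ⟨hx1, hx2⟩ := hx
  obtain ⟨hy1, hy2⟩ := hy
  rcases ha.eq_or_lt with h | h
  · subst h
    have hb' : 0 < b := by linarith
    constructor
    · simp; positivity
    · simp; positivity
  · constructor
    · have : 0 ≤ b^2 * Q y := by positivity
      have : 0 ≤ a * b * Bf x y := by positivity
      have : 0 < a^2 * Q x := by positivity
      linarith
    · have : 0 ≤ b * S y := by positivity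
      have : 0 < a * S x := by positivity
      linarith

lemma convex_C : Convex ℝ C := by
  intro x hx y hy a b ha hb hab
  exact comb_mem ha hb (by linarith) hx hy

lemma nonempty_C : C.Nonempty := ⟨fun _ => 1, by simp [mem_C, Q, S]; norm_num⟩

lemma cone_C : ∀ x ∈ C, ∀ t : ℝ, 0 < t → t • x ∈ C := by
  intro x hx t ht
  have := comb_mem (a := t) (b := 0) ht.le le_rfl (by linarith) hx hx
  simpa using this

lemma proper_C (x v : Fin 3 → ℝ) (hv : v ≠ 0) : ∃ t : ℝ, x + t • v ∉ closure C := by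
  by_contra hcon
  push Not at hcon
  have h := fun t => closure_C (hcon t)
  have hS : ∀ t : ℝ, 0 ≤ S x + t * S v := by
    intro t
    have := (h t).2
    have e : S (x + t • v) = S x + t * S v := by
      simp only [S, Pi.add_apply, Pi.smul_apply, smul_eq_mul]; ring
    rwa [e] at this
  have hSv : S v = 0 := by
    by_contra hne
    have h1 := hS (-(S x + 1) / S v)
    rw [div_mul_cancel₀ _ hne] at h1
    linarith
  have hQ : ∀ t : ℝ, 0 ≤ Q x + t^2 * Q v := by
    intro t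
    have h1 := (h t).1
    have h2 := (h (-t)).1
    have e1 : Q (x + t • v) + Q (x + (-t) • v) = 2 * (Q x + t^2 * Q v) := by
      simp only [Q, Pi.add_apply, Pi.smul_apply, smul_eq_mul]; ring
    linarith
  have hQv : Q v < 0 := by
    have hs : v 2 = - v 0 - v 1 := by unfold S at hSv; linarith
    have : Q v = -(v 0 ^2 + v 0 * v 1 + v 1 ^2) := by
      unfold Q; rw [hs]; ring
    rw [this]
    have hne : v 0 ≠ 0 ∨ v 1 ≠ 0 := by
      by_contra hh
      push Not at hh
      apply hv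
      funext i
      fin_cases i
      · exact hh.1
      · exact hh.2
      · simp [hs, hh.1, hh.2]
    rcases hne with hne | hne
    · have := sq_pos_of_ne_zero hne
      nlinarith [sq_nonneg (v 0 + 2 * v 1)]
    · have := sq_pos_of_ne_zero hne
      nlinarith [sq_nonneg (2 * v 0 + v 1)]
  have hx0 : 0 ≤ Q x := by have := hQ 0; simpa using this
  have h1 := hQ (Real.sqrt ((Q x + 1) / (-Q v)))
  rw [Real.sq_sqrt (div_nonneg (by linarith) (by linarith))] at h1
  have h2 : (Q x + 1) / (-Q v) * Q v = -(Q x + 1) := by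
    have hne : Q v ≠ 0 := hQv.ne
    field_simp
  rw [h2] at h1
  linarith

/-- The three integral involutions (half-turns). -/
def A (i : Fin 3) : Matrix (Fin 3) (Fin 3) ℤ :=
  ![!![-1, 0, 0; 2, 0, 1; 2, 1, 0], !![0, 2, 1; 0, -1, 0; 1, 2, 0], !![0, 1, 2; 1, 0, 2; 0, 0, -1]] i

lemma A_sq (i : Fin 3) : A i * A i = 1 := by
  fin_cases i <;> decide

/-- The real matrices. -/
noncomputable def AR (i : Fin 3) : Matrix (Fin 3) (Fin 3) ℝ := (A i).map (Int.castRingHom ℝ)

lemma AR_sq (i : Fin 3) : AR i * AR i = 1 := by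
  unfold AR
  rw [← Matrix.map_mul, A_sq]
  simp

lemma AR_mulVec_zero (x : Fin 3 → ℝ) :
    AR 0 *ᵥ x = ![-x 0, 2 * x 0 + x 2, 2 * x 0 + x 1] := by
  funext i
  fin_cases i <;> simp [AR, A, Matrix.mulVec, dotProduct, Fin.sum_univ_three]

lemma AR_mulVec_one (x : Fin 3 → ℝ) :
    AR 1 *ᵥ x = ![2 * x 1 + x 2, -x 1, 2 * x 1 + x 0] := by
  funext i
  fin_cases i <;> simp [AR, A, Matrix.mulVec, dotProduct, Fin.sum_univ_three]; ring

lemma AR_mulVec_two (x : Fin 3 → ℝ) :
    AR 2 *ᵥ x = ![2 * x 2 + x 1, 2 * x 2 + x 0, -x 2] := by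
  funext i
  fin_cases i <;> simp [AR, A, Matrix.mulVec, dotProduct, Fin.sum_univ_three] <;> ring

lemma det_AR (i : Fin 3) : (AR i).det = 1 := by
  fin_cases i <;> simp [AR, A, Matrix.det_fin_three]

lemma trace_AR (i : Fin 3) : (AR i).trace = -1 := by
  fin_cases i <;> simp [AR, A, Matrix.trace, Fin.sum_univ_three]

lemma Q_AR (i : Fin 3) (x : Fin 3 → ℝ) : Q (AR i *ᵥ x) = Q x := by
  fin_cases i
  · show Q (AR 0 *ᵥ x) = _
    rw [AR_mulVec_zero]; simp [Q]; ring
  · show Q (AR 1 *ᵥ x) = _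
    rw [AR_mulVec_one]; simp [Q]; ring
  · show Q (AR 2 *ᵥ x) = _
    rw [AR_mulVec_two]; simp [Q]; ring

lemma S_AR (i : Fin 3) (x : Fin 3 → ℝ) : S (AR i *ᵥ x) = S x + 2 * x i := by
  fin_cases i
  · show S (AR 0 *ᵥ x) = _
    rw [AR_mulVec_zero]; simp [S]; ring
  · show S (AR 1 *ᵥ x) = _
    rw [AR_mulVec_one]; simp [S]; ring
  · show S (AR 2 *ᵥ x) = _
    rw [AR_mulVec_two]; simp [S]; ring

lemma aux_pos {p q r : ℝ} (h1 : 0 < p * q + q * r + r * p) (h2 : 0 < p + q + r) :
    0 < 3 * p + q + r := by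
  by_contra hcon
  push Not at hcon
  have hp : p < 0 := by linarith
  have hm : 0 < q + r := by linarith
  nlinarith [sq_nonneg (q - r), mul_pos hm (neg_pos.mpr hp)]

lemma S_AR_pos (i : Fin 3) {x : Fin 3 → ℝ} (hx : x ∈ C) : 0 < S (AR i *ᵥ x) := by
  rw [S_AR]
  obtain ⟨h1, h2⟩ := hx
  unfold Q at h1
  unfold S at h2 ⊢
  fin_cases i
  · have := aux_pos (p := x 0) (q := x 1) (r := x 2) (by linarith) (by linarith)
    simp; linarith
  · have := aux_pos (p := x 1) (q := x 0) (r := x 2) (by linarith) (by linarith)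
    simp; linarith
  · have := aux_pos (p := x 2) (q := x 1) (r := x 0) (by linarith) (by linarith)
    simp; linarith

lemma AR_mem (i : Fin 3) {x : Fin 3 → ℝ} (hx : x ∈ C) : AR i *ᵥ x ∈ C :=
  ⟨by rw [Q_AR]; exact hx.1, S_AR_pos i hx⟩

lemma aux_two {p q r : ℝ} (h1 : 0 < p * q + q * r + r * p) (h2 : 0 < p + q + r)
    (hp : p ≤ 0) : 0 < q := by
  by_contra hcon
  push Not at hcon
  nlinarith [mul_nonneg_of_nonpos_of_nonpos hp hcon, sq_nonneg (p - q)]

/-- In the cone at most one coordinate is nonpositive. -/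
lemma pos_of_nonpos {x : Fin 3 → ℝ} (hx : x ∈ C) {i j : Fin 3} (hij : i ≠ j) (hi : x i ≤ 0) :
    0 < x j := by
  obtain ⟨h1, h2⟩ := hx
  unfold Q at h1
  unfold S at h2
  fin_cases i <;> fin_cases j <;> simp at hij hi ⊢
  · exact aux_two (r := x 2) (by linarith) (by linarith) hi
  · exact aux_two (r := x 1) (by linarith) (by linarith) hi
  · exact aux_two (r := x 2) (by linarith) (by linarith) hi
  · exact aux_two (r := x 0) (by linarith) (by linarith) hi
  · exact aux_two (r := x 1) (by linarith) (by linarith) hi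
  · exact aux_two (r := x 0) (by linarith) (by linarith) hi

lemma AR_apply_self (i : Fin 3) (x : Fin 3 → ℝ) : (AR i *ᵥ x) i = - x i := by
  fin_cases i
  · show (AR 0 *ᵥ x) 0 = _
    rw [AR_mulVec_zero]; simp
  · show (AR 1 *ᵥ x) 1 = _
    rw [AR_mulVec_one]; simp
  · show (AR 2 *ᵥ x) 2 = _
    rw [AR_mulVec_two]; simp

/-- The Coxeter matrix with all off-diagonal entries infinite. -/
def M : CoxeterMatrix (Fin 3) where
  M := Matrix.of fun i j => if i = j then 1 else 0
  isSymm := by decide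
  diagonal := by decide
  off_diagonal i j h := by simp [h]

/-- The generators as units. -/
noncomputable def U (i : Fin 3) : (Matrix (Fin 3) (Fin 3) ℝ)ˣ :=
  ⟨AR i, AR i, AR_sq i, AR_sq i⟩

lemma liftable : M.IsLiftable U := by
  intro i j
  by_cases h : i = j
  · subst h
    have : M i i = 1 := M.diagonal i
    rw [this, pow_one]
    apply Units.ext
    exact AR_sq i
  · have : M i j = 0 := by
      show (Matrix.of fun i j : Fin 3 => if i = j then 1 else 0) i j = 0
      simp [h]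
    rw [this, pow_zero]

/-- The representation. -/
noncomputable def ρ : M.Group →* (Matrix (Fin 3) (Fin 3) ℝ)ˣ :=
  M.toCoxeterSystem.lift ⟨U, liftable⟩

lemma ρ_simple (i : Fin 3) : ρ (M.toCoxeterSystem.simple i) = U i :=
  M.toCoxeterSystem.lift_apply_simple liftable i

lemma ρ_simple_val (i : Fin 3) : (ρ (M.toCoxeterSystem.simple i)).val = AR i := by
  rw [ρ_simple]; rfl

lemma ρ_mem (w : M.Group) : ∀ x ∈ C, (ρ w).val *ᵥ x ∈ C := by
  refine M.toCoxeterSystem.simple_induction_left (p := fun w => ∀ x ∈ C, (ρ w).val *ᵥ x ∈ C) w ?_ ?_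
  · intro x hx
    simpa using hx
  · intro w i ih x hx
    rw [map_mul, Units.val_mul, ρ_simple_val, ← Matrix.mulVec_mulVec]
    exact AR_mem i (ih x hx)

lemma ρ_det (w : M.Group) : (ρ w).val.det = 1 := by
  refine M.toCoxeterSystem.simple_induction_left (p := fun w => (ρ w).val.det = 1) w ?_ ?_
  · simp
  · intro w i ih
    rw [map_mul, Units.val_mul, ρ_simple_val, Matrix.det_mul, ih, det_AR, one_mul]

lemma ρ_int (w : M.Group) : ∃ N : Matrix (Fin 3) (Fin 3) ℤ,
    (ρ w).val = N.map (Int.castRingHom ℝ) := by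
  refine M.toCoxeterSystem.simple_induction_left (p := fun w => ∃ N : Matrix (Fin 3) (Fin 3) ℤ,
    (ρ w).val = N.map (Int.castRingHom ℝ)) w ?_ ?_
  · exact ⟨1, by simp⟩
  · rintro w i ⟨N, hN⟩
    refine ⟨A i * N, ?_⟩
    rw [map_mul, Units.val_mul, ρ_simple_val, hN, Matrix.map_mul]
    rfl

lemma ρ_disc (w : M.Group)
    (h : ∀ i j, |(ρ w).val i j - (1 : Matrix (Fin 3) (Fin 3) ℝ) i j| < 1) : ρ w = 1 := by
  obtain ⟨N, hN⟩ := ρ_int w
  apply Units.ext
  rw [hN, Units.val_one]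
  have : N = 1 := by
    ext i j
    have := h i j
    rw [hN] at this
    have e : (1 : Matrix (Fin 3) (Fin 3) ℝ) i j = (((1 : Matrix (Fin 3) (Fin 3) ℤ) i j : ℤ) : ℝ) := by
      by_cases hij : i = j
      · subst hij; simp
      · simp [hij]
    rw [e, Matrix.map_apply] at this
    have h2 : |N i j - (1 : Matrix (Fin 3) (Fin 3) ℤ) i j| < 1 := by
      have : |((N i j - (1 : Matrix (Fin 3) (Fin 3) ℤ) i j : ℤ) : ℝ)| < 1 := by
        push_cast
        simpa using this
      exact_mod_cast this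
    have h3 := Int.abs_lt_one_iff.mp h2
    linarith
  rw [this]
  simp

/-- ping-pong: a reduced nonempty word sends `(1,1,1)` to a point whose first-letter
coordinate is negative. -/
lemma pingpong (l : List (Fin 3)) (i : Fin 3) (hl : List.IsChain (· ≠ ·) (i :: l)) :
    ((ρ (M.toCoxeterSystem.wordProd (i :: l))).val *ᵥ (fun _ => 1)) i < 0 := by
  induction l generalizing i with
  | nil =>
    rw [M.toCoxeterSystem.wordProd_cons, M.toCoxeterSystem.wordProd_nil, mul_one, ρ_simple_val,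
      AR_apply_self]
    norm_num
  | cons j l ih =>
    have hne : i ≠ j := by
      rw [List.isChain_cons_cons] at hl; exact hl.1
    have hl' : List.IsChain (· ≠ ·) (j :: l) := by
      rw [List.isChain_cons_cons] at hl; exact hl.2
    have h1 := ih j hl'
    rw [M.toCoxeterSystem.wordProd_cons, map_mul, Units.val_mul, ρ_simple_val,
      ← Matrix.mulVec_mulVec, AR_apply_self]
    have hmem : (ρ (M.toCoxeterSystem.wordProd (j :: l))).val *ᵥ (fun _ => 1) ∈ C := by
      apply ρ_mem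
      simp [mem_C, Q, S]; norm_num
    have := pos_of_nonpos hmem hne.symm h1.le
    linarith

lemma chain_of_reduced (l : List (Fin 3)) (hl : M.toCoxeterSystem.IsReduced l) :
    List.IsChain (· ≠ ·) l := by
  induction l with
  | nil => exact List.IsChain.nil
  | cons i l ih =>
    have hl' : M.toCoxeterSystem.IsReduced l := by
      have := hl.drop 1
      simpa using this
    cases l with
    | nil => exact List.IsChain.singleton i
    | cons j l =>
      rw [List.isChain_cons_cons]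
      refine ⟨?_, ih hl'⟩
      rintro rfl
      have h1 : M.toCoxeterSystem.wordProd (i :: i :: l) = M.toCoxeterSystem.wordProd l := by
        rw [M.toCoxeterSystem.wordProd_cons, M.toCoxeterSystem.wordProd_cons, ← mul_assoc,
          M.toCoxeterSystem.simple_mul_simple_self, one_mul]
      have h2 := hl.eq
      rw [h1] at h2
      have h3 := M.toCoxeterSystem.length_wordProd_le l
      simp at h2
      omega

lemma ρ_injective : Function.Injective ρ := by
  rw [injective_iff_map_eq_one]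
  intro w hw
  obtain ⟨l, hl, rfl⟩ := M.toCoxeterSystem.exists_isReduced w
  cases l with
  | nil => simp
  | cons i l =>
    exfalso
    have h := pingpong l i (chain_of_reduced _ hl)
    rw [hw] at h
    simp at h
    linarith

/-- Fundamental region. -/
def F : Set (Fin 3 → ℝ) := {x | x ∈ C ∧ ∀ i, 0 ≤ x i}

lemma F_covers (x : Fin 3 → ℝ) (hx : x ∈ C) : ∃ w : M.Group, (ρ w).val *ᵥ x ∈ F := by
  classical
  -- covectors
  obtain ⟨ε, hε, hball⟩ : ∃ ε > 0, Metric.ball x ε ⊆ C := Metric.isOpen_iff.mp isOpen_C x hx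
  set δ := ε / 2 with hδ
  have hδ0 : 0 < δ := by positivity
  have hmem : ∀ (i : Fin 3) (s : ℝ), |s| ≤ δ → x + Pi.single i s ∈ C := by
    intro i s hs
    apply hball
    rw [Metric.mem_ball, dist_eq_norm]
    have : x + Pi.single i s - x = Pi.single i s := by abel
    rw [this, Pi.norm_single, Real.norm_eq_abs]
    linarith
  -- integer covector of w
  choose N hN using ρ_int
  let n : M.Group → (Fin 3 → ℤ) := fun w j => N w 0 j + N w 1 j + N w 2 j
  have hS : ∀ w (y : Fin 3 → ℝ), S ((ρ w).val *ᵥ y) = ∑ j, (n w j : ℝ) * y j := by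
    intro w y
    rw [hN]
    simp only [S, Matrix.mulVec, dotProduct, Fin.sum_univ_three, Matrix.map_apply, n,
      Int.coe_castRingHom]
    push_cast
    ring
  have hbound : ∀ w j, δ * |(n w j : ℝ)| ≤ S ((ρ w).val *ᵥ x) := by
    intro w j
    have hsum : ∀ s : ℝ, S ((ρ w).val *ᵥ (x + Pi.single j s)) =
        S ((ρ w).val *ᵥ x) + (n w j : ℝ) * s := by
      intro s
      rw [hS, hS]
      simp only [Pi.add_apply, mul_add, Finset.sum_add_distrib]
      congr 1
      rw [Finset.sum_eq_single j]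
      · simp
      · intro b _ hb
        simp [hb]
      · simp
    rcases le_total 0 (n w j : ℝ) with h | h
    · rw [abs_of_nonneg h]
      have h1 := (ρ_mem w _ (hmem j (-δ) (by rw [abs_neg, abs_of_pos hδ0]))).2
      rw [hsum] at h1
      linarith
    · rw [abs_of_nonpos h]
      have h1 := (ρ_mem w _ (hmem j δ (by rw [abs_of_pos hδ0]))).2
      rw [hsum] at h1
      linarith
  -- the set of covectors with S ≤ S x is finite
  let T : Set (Fin 3 → ℤ) := {v | ∃ w : M.Group, n w = v ∧ S ((ρ w).val *ᵥ x) ≤ S x}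
  have hTfin : T.Finite := by
    obtain ⟨K, hK⟩ := exists_nat_gt (S x / δ)
    apply Set.Finite.subset (Set.finite_Icc (fun _ : Fin 3 => -(K : ℤ)) (fun _ => (K : ℤ)))
    rintro v ⟨w, rfl, hw⟩
    rw [Set.mem_Icc, Pi.le_def, Pi.le_def]
    have key : ∀ j, |n w j| ≤ (K : ℤ) := by
      intro j
      have h1 := (hbound w j).trans hw
      have h2 : |(n w j : ℝ)| ≤ S x / δ := by
        rw [le_div_iff₀ hδ0]; linarith
      have h3 : |(n w j : ℝ)| ≤ (K : ℝ) := h2.trans hK.le
      exact_mod_cast h3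
    exact ⟨fun j => (abs_le.mp (key j)).1, fun j => (abs_le.mp (key j)).2⟩
  have hTne : T.Nonempty := ⟨n 1, 1, rfl, by simp⟩
  obtain ⟨v, ⟨w, rfl, hw⟩, hmin⟩ := Set.exists_min_image T
    (fun v => ∑ j, (v j : ℝ) * x j) hTfin hTne
  refine ⟨w, ρ_mem w x hx, ?_⟩
  intro i
  by_contra hneg
  push Not at hneg
  have h1 : S ((ρ (M.toCoxeterSystem.simple i * w)).val *ᵥ x) =
      S ((ρ w).val *ᵥ x) + 2 * ((ρ w).val *ᵥ x) i := by
    rw [map_mul, Units.val_mul, ρ_simple_val, ← Matrix.mulVec_mulVec, S_AR]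
  have h2 : n (M.toCoxeterSystem.simple i * w) ∈ T := ⟨_, rfl, by rw [h1]; linarith⟩
  have h3 := hmin _ h2
  simp only [← hS] at h3
  rw [h1] at h3
  linarith

end Pool.Agent.H985.CoxA
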