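import Pool.Agent.H985.CoxA

set_option autoImplicit false
open Matrix

namespace Pool.Agent.H985.CoxA

/-- The one-sided (Funk type) ratio. -/
noncomputable def mm (x y : Fin 3 → ℝ) : ℝ := sInf {t : ℝ | t • y - x ∈ closure C}

/-- The Hilbert distance. -/
noncomputable def d (x y : Fin 3 → ℝ) : ℝ := (1/2) * Real.log (mm x y * mm y x)

lemma mm_lower {x y : Fin 3 → ℝ} (hy : y ∈ C) {t : ℝ} (ht : t • y - x ∈ closure C) :
    S x / S y ≤ t := by
  have h := (closure_C ht).2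
  have e : S (t • y - x) = t * S y - S x := by
    simp only [S, Pi.sub_apply, Pi.smul_apply, smul_eq_mul]; ring
  rw [e] at h
  rw [div_le_iff₀ hy.2]
  linarith

lemma mm_le {x y : Fin 3 → ℝ} (hy : y ∈ C) {t : ℝ} (ht : t • y - x ∈ C) :
    mm x y ≤ t :=
  csInf_le ⟨S x / S y, fun _ h => mm_lower hy h⟩ (subset_closure ht)

lemma mm_pos {x y : Fin 3 → ℝ} (hx : x ∈ C) (hy : y ∈ C) {t : ℝ} (ht : t • y - x ∈ C) :
    0 < mm x y := by
  have h1 : S x / S y ≤ mm x y := le_csInf ⟨t, subset_closure ht⟩ (fun _ h => mm_lower hy h)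
  exact lt_of_lt_of_le (div_pos hx.2 hy.2) h1

lemma d_le {x y : Fin 3 → ℝ} (hx : x ∈ C) (hy : y ∈ C) {t s κ : ℝ} (hκ : 0 ≤ κ)
    (ht : t • y - x ∈ C) (hs : s • x - y ∈ C) (hts : t * s = (1 + κ) ^ 2) : d x y ≤ κ := by
  have h1 := mm_le hy ht
  have h2 := mm_le hx hs
  have h3 := mm_pos hx hy ht
  have h4 := mm_pos hy hx hs
  have h5 : mm x y * mm y x ≤ (1 + κ) ^ 2 := by
    rw [← hts]
    exact mul_le_mul h1 h2 h4.le (h3.le.trans h1)
  unfold d
  have h6 : Real.log (mm x y * mm y x) ≤ Real.log ((1 + κ) ^ 2) :=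
    Real.log_le_log (mul_pos h3 h4) h5
  rw [Real.log_pow] at h6
  have h7 : Real.log (1 + κ) ≤ κ := by
    have := Real.log_le_sub_one_of_pos (x := 1 + κ) (by linarith)
    linarith
  push_cast at h6
  linarith

/-- A vector with coordinates `(P, u, v)` based at the cusp `j`. -/
noncomputable def vec (j : Fin 3) (P u v : ℝ) : Fin 3 → ℝ :=
  fun i => if i = j then P else if i = j + 1 then u else v

lemma vec_mem (j : Fin 3) (P u v : ℝ) (h1 : 0 < P * u + u * v + v * P) (h2 : 0 < P + u + v) :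
    vec j P u v ∈ C := by
  rw [mem_C]
  fin_cases j <;> simp [vec, Q, S, Fin.ext_iff] <;> constructor <;> linarith

lemma vec_sub (j : Fin 3) (P u v P' u' v' t : ℝ) :
    t • vec j P' u' v' - vec j P u v = vec j (t * P' - P) (t * u' - u) (t * v' - v) := by
  funext i
  simp only [vec, Pi.sub_apply, Pi.smul_apply, smul_eq_mul]
  split_ifs <;> rfl

/-- The basic estimate inside a box at depth `4 ^ k`. -/
lemma box_mem (j : Fin 3) {K L s P u P' u' : ℝ} (hL : 0 < L) (hKL : K = L ^ 2) (hL1 : 1 ≤ L)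
    (hs : 0 < s) (hP' : K / 2 ≤ P') (hu0 : 0 ≤ u') (hu1 : u' ≤ 1)
    (hdP : |P' - P| ≤ K * s) (hdu : |u' - u| ≤ L * s) :
    (1 + 5 * s) • vec j P' u' (1 - u') - vec j P u (1 - u) ∈ C := by
  rw [vec_sub]
  obtain ⟨hdP1, hdP2⟩ := abs_le.mp hdP
  obtain ⟨hdu1, hdu2⟩ := abs_le.mp hdu
  have hK : 0 < K := by rw [hKL]; positivity
  have hKs : 0 < K * s := by positivity
  have hLK : L ≤ K := by rw [hKL]; nlinarith
  apply vec_mem
  · have e : ((1 + 5 * s) * P' - P) * ((1 + 5 * s) * u' - u) +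
        ((1 + 5 * s) * u' - u) * ((1 + 5 * s) * (1 - u') - (1 - u)) +
        ((1 + 5 * s) * (1 - u') - (1 - u)) * ((1 + 5 * s) * P' - P)
        = 25 * s ^ 2 * (P' + u' * (1 - u')) +
          5 * s * ((P' - P) + (u' - u) * (1 - 2 * u')) - (u' - u) ^ 2 := by
      ring
    rw [e]
    have h1 : K / 2 ≤ P' + u' * (1 - u') := by nlinarith
    have h2 : (u' - u) * (1 - 2 * u') ≥ - (L * s) := by
      have : |(u' - u) * (1 - 2 * u')| ≤ L * s * 1 := by
        rw [abs_mul]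
        apply mul_le_mul hdu _ (abs_nonneg _) (by positivity)
        rw [abs_le]; constructor <;> linarith
      have := (abs_le.mp this).1
      linarith
    have h3 : (u' - u) ^ 2 ≤ K * s ^ 2 := by
      have : (u' - u) ^ 2 ≤ (L * s) ^ 2 := by
        rw [← sq_abs (u' - u)]
        exact pow_le_pow_left₀ (abs_nonneg _) hdu 2
      rw [hKL]; nlinarith
    have h4 : 25 * s ^ 2 * (K / 2) ≤ 25 * s ^ 2 * (P' + u' * (1 - u')) := by
      apply mul_le_mul_of_nonneg_left h1; positivity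
    have h5 : 5 * s * (-(K * s) - K * s) ≤ 5 * s * ((P' - P) + (u' - u) * (1 - 2 * u')) := by
      apply mul_le_mul_of_nonneg_left _ (by positivity)
      have : L * s ≤ K * s := by apply mul_le_mul_of_nonneg_right hLK hs.le
      linarith
    have h6 : 0 < K * s ^ 2 := by positivity
    nlinarith
  · have e : ((1 + 5 * s) * P' - P) + ((1 + 5 * s) * u' - u) + ((1 + 5 * s) * (1 - u') - (1 - u))
      = 5 * s * P' + (P' - P) + 5 * s := by ring
    rw [e]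
    have : 5 * s * (K / 2) ≤ 5 * s * P' := by
      apply mul_le_mul_of_nonneg_left hP'; positivity
    nlinarith

/-- The box `(j, k, a, b)` at mesh `1/m`. -/
def box (m : ℕ) (j : Fin 3) (k a b : ℕ) : Set (Fin 3 → ℝ) :=
  {x | ∃ σ P u : ℝ, 0 < σ ∧ x = σ • vec j P u (1 - u) ∧
    (a : ℝ) / m ≤ u ∧ u ≤ (a + 1 : ℝ) / m ∧ 0 ≤ u ∧ u ≤ 1 ∧
    4 ^ k / 2 + (b : ℝ) * (2 ^ k / m) ≤ P ∧ P ≤ 4 ^ k / 2 + (b + 1 : ℝ) * (2 ^ k / m)}

lemma smul_vec_mem {j : Fin 3} {σ P u : ℝ} (hσ : 0 < σ) (hP : 0 < P) (hu0 : 0 ≤ u) (hu1 : u ≤ 1) :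
    σ • vec j P u (1 - u) ∈ C := by
  apply cone_C _ _ _ hσ
  apply vec_mem
  · nlinarith
  · linarith

lemma box_subset (m : ℕ) (j : Fin 3) (k a b : ℕ) : box m j k a b ⊆ C := by
  rintro x ⟨σ, P, u, hσ, rfl, -, -, hu0, hu1, hP, -⟩
  apply smul_vec_mem hσ _ hu0 hu1
  have : (0:ℝ) < 4 ^ k / 2 := by positivity
  have : (0:ℝ) ≤ (b : ℝ) * (2 ^ k / m) := by positivity
  linarith

lemma d_le_box {m : ℕ} (hm : 0 < m) {j : Fin 3} {k a b : ℕ} {x y : Fin 3 → ℝ}
    (hx : x ∈ box m j k a b) (hy : y ∈ box m j k a b) : d x y ≤ 5 / (2 ^ k * m) := by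
  have hxC := box_subset _ _ _ _ _ hx
  have hyC := box_subset _ _ _ _ _ hy
  obtain ⟨σ, P, u, hσ, rfl, ha1, ha2, hu0, hu1, hP1, hP2⟩ := hx
  obtain ⟨τ, P', u', hτ, rfl, ha1', ha2', hu0', hu1', hP1', hP2'⟩ := hy
  have hm' : (0:ℝ) < m := by exact_mod_cast hm
  have hk : (0:ℝ) < 2 ^ k := by positivity
  have hb0 : (0:ℝ) ≤ (b : ℝ) * (2 ^ k / m) := by positivity
  obtain ⟨s, hs⟩ : ∃ s : ℝ, s = 1 / (2 ^ k * m) := ⟨_, rfl⟩
  have hs0 : 0 < s := by rw [hs]; positivity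
  have e5 : 5 / (2 ^ k * (m:ℝ)) = 5 * s := by rw [hs]; ring
  have e4 : (4:ℝ) ^ k = (2 ^ k) ^ 2 := by rw [← pow_mul, mul_comm, pow_mul]; norm_num
  have eL : (2:ℝ) ^ k * s = 1 / m := by rw [hs]; field_simp
  have eK : (4:ℝ) ^ k * s = 2 ^ k / m := by rw [hs, e4]; field_simp
  have hdu : |u' - u| ≤ 2 ^ k * s := by
    rw [eL, abs_le]
    have : (a + 1 : ℝ) / m = a / m + 1 / m := by ring
    constructor <;> linarith
  have hdP : |P' - P| ≤ 4 ^ k * s := by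
    rw [eK, abs_le]
    have : (b + 1 : ℝ) * (2 ^ k / m) = b * (2 ^ k / m) + 2 ^ k / m := by ring
    constructor <;> linarith
  have hL1 : (1:ℝ) ≤ 2 ^ k := one_le_pow₀ (by norm_num)
  have h1 := box_mem j hk e4 hL1 hs0 (by linarith) hu0' hu1' hdP hdu
  have h2 := box_mem j hk e4 hL1 hs0 (P := P') (u := u') (P' := P) (u' := u) (by linarith) hu0 hu1
    (by rw [abs_sub_comm]; exact hdP) (by rw [abs_sub_comm]; exact hdu)
  rw [e5]
  apply d_le hxC hyC (t := σ / τ * (1 + 5 * s)) (s := τ / σ * (1 + 5 * s)) (by positivity)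
  · have e : (σ / τ * (1 + 5 * s)) • τ • vec j P' u' (1 - u') - σ • vec j P u (1 - u)
      = σ • ((1 + 5 * s) • vec j P' u' (1 - u') - vec j P u (1 - u)) := by
      rw [smul_sub, smul_smul, smul_smul]
      congr 2
      field_simp
    rw [e]
    exact cone_C _ h1 _ hσ
  · have e : (τ / σ * (1 + 5 * s)) • σ • vec j P u (1 - u) - τ • vec j P' u' (1 - u')
      = τ • ((1 + 5 * s) • vec j P u (1 - u) - vec j P' u' (1 - u')) := by
      rw [smul_sub, smul_smul, smul_smul]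
      congr 2
      field_simp
    rw [e]
    exact cone_C _ h2 _ hτ
  · field_simp

/-- Every point of `F` lies in one of the boxes. -/
lemma F_subset_boxes {m : ℕ} (hm : 0 < m) {x : Fin 3 → ℝ} (hx : x ∈ F) :
    ∃ (j : Fin 3) (k : ℕ) (a : Fin m) (b : Fin (2 * 2 ^ k * m)), x ∈ box m j k a b := by
  obtain ⟨hxC, hx0⟩ := hx
  have hm' : (0:ℝ) < m := by exact_mod_cast hm
  -- choose cusp
  obtain ⟨j, hj⟩ : ∃ j : Fin 3, x (j + 1) + x (j + 2) ≤ 2 * x j := by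
    by_contra hcon
    push Not at hcon
    have h0 := hcon 0
    have h1 := hcon 1
    have h2 := hcon 2
    have e1 : (1 : Fin 3) + 1 = 2 := rfl
    have e2 : (1 : Fin 3) + 2 = 0 := rfl
    have e3 : (2 : Fin 3) + 1 = 0 := rfl
    have e4 : (2 : Fin 3) + 2 = 1 := rfl
    simp only [zero_add, e1, e2, e3, e4] at h0 h1 h2
    linarith
  refine ⟨j, ?_⟩
  have hσ : 0 < x (j + 1) + x (j + 2) := by
    by_contra hcon
    push Not at hcon
    have h1 := hx0 (j + 1)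
    have h2 := hx0 (j + 2)
    have h3 : x (j + 1) = 0 := by linarith
    have h4 : x (j + 2) = 0 := by linarith
    have hQ := hxC.1
    unfold Q at hQ
    fin_cases j
    · simp at h3 h4
      rw [h3, h4] at hQ; simp at hQ
    · have e1 : (1 : Fin 3) + 1 = 2 := rfl
      have e2 : (1 : Fin 3) + 2 = 0 := rfl
      simp only [Fin.mk_one, e1, e2] at h3 h4
      rw [h3, h4] at hQ; simp at hQ
    · have e1 : (2 : Fin 3) + 1 = 0 := rfl
      have e2 : (2 : Fin 3) + 2 = 1 := rfl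
      simp only [Fin.reduceFinMk, e1, e2] at h3 h4
      rw [h3, h4] at hQ; simp at hQ
  obtain ⟨σ, hσe⟩ : ∃ σ, σ = x (j + 1) + x (j + 2) := ⟨_, rfl⟩
  rw [← hσe] at hσ hj
  obtain ⟨u, hu⟩ : ∃ u, u = x (j + 1) / σ := ⟨_, rfl⟩
  obtain ⟨P, hP⟩ : ∃ P, P = x j / σ := ⟨_, rfl⟩
  have hu0 : 0 ≤ u := by rw [hu]; exact div_nonneg (hx0 _) hσ.le
  have hu1 : u ≤ 1 := by
    rw [hu, div_le_one hσ, hσe]; linarith [hx0 (j + 2)]
  have hP0 : 1 / 2 ≤ P := by
    rw [hP, le_div_iff₀ hσ]; linarith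
  have hxe : x = σ • vec j P u (1 - u) := by
    have e1 : σ * P = x j := by rw [hP]; field_simp
    have e2 : σ * u = x (j + 1) := by rw [hu]; field_simp
    have e3 : σ * (1 - u) = x (j + 2) := by rw [mul_sub, e2, mul_one, hσe]; ring
    funext i
    simp only [vec, Pi.smul_apply, smul_eq_mul]
    split_ifs with h h'
    · rw [h, e1]
    · rw [h', e2]
    · rw [e3]
      congr 1
      fin_cases i <;> fin_cases j <;> simp_all [Fin.ext_iff]
  -- level
  obtain ⟨k, hk1, hk2⟩ : ∃ k : ℕ, (4:ℝ) ^ k ≤ 2 * P ∧ 2 * P < 4 ^ (k + 1) :=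
    exists_nat_pow_near (by linarith) (by norm_num)
  refine ⟨k, ?_⟩
  have h2k : (0:ℝ) < 2 ^ k := by positivity
  have e4 : (4:ℝ) ^ k = 2 ^ k * 2 ^ k := by
    rw [← pow_add, ← two_mul, pow_mul]; norm_num
  -- a
  have hmne : m ≠ 0 := hm.ne'
  obtain ⟨a, ha1, ha2⟩ : ∃ a : Fin m, (a : ℝ) / m ≤ u ∧ u ≤ (a + 1 : ℝ) / m := by
    by_cases h : u < 1
    · refine ⟨⟨⌊u * m⌋₊, ?_⟩, ?_, ?_⟩
      · rw [Nat.floor_lt (by positivity)]
        nlinarith
      · rw [div_le_iff₀ hm']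
        exact Nat.floor_le (by positivity)
      · rw [le_div_iff₀ hm']
        exact (Nat.lt_floor_add_one _).le
    · have hu' : u = 1 := le_antisymm hu1 (not_lt.mp h)
      refine ⟨⟨m - 1, by omega⟩, ?_, ?_⟩
      · rw [div_le_iff₀ hm', hu', one_mul]
        exact_mod_cast Nat.sub_le m 1
      · rw [le_div_iff₀ hm', hu', one_mul]
        have : ((m - 1 : ℕ) : ℝ) = m - 1 := by
          rw [Nat.cast_sub (by omega)]; simp
        simp only [this]; linarith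
  refine ⟨a, ?_⟩
  -- b
  have hstep : (0:ℝ) < 2 ^ k / m := by positivity
  have hnn : 0 ≤ (P - 4 ^ k / 2) / (2 ^ k / m) := by
    apply div_nonneg _ hstep.le; linarith
  refine ⟨⟨⌊(P - 4 ^ k / 2) / (2 ^ k / m)⌋₊, ?_⟩, ?_⟩
  · rw [Nat.floor_lt hnn, div_lt_iff₀ hstep]
    push_cast
    have e : 2 * 2 ^ k * (m:ℝ) * (2 ^ k / m) = 2 * 4 ^ k := by rw [e4]; field_simp
    rw [e]
    rw [pow_succ] at hk2
    have : (0:ℝ) < 4 ^ k := by positivity
    linarith
  · refine ⟨σ, P, u, hσ, hxe, ha1, ha2, hu0, hu1, ?_, ?_⟩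
    · have := Nat.floor_le hnn
      rw [le_div_iff₀ hstep] at this
      simp only
      linarith
    · have := (Nat.lt_floor_add_one ((P - 4 ^ k / 2) / (2 ^ k / (m:ℝ)))).le
      rw [div_le_iff₀ hstep] at this
      simp only
      linarith

/-- Index type of the boxes. -/
abbrev Idx (m : ℕ) : Type := Fin 3 × (Σ k : ℕ, Fin m × Fin (2 * 2 ^ k * m))

lemma tsum_bound (m : ℕ) (hm : 0 < m) :
    ∑' i : Idx m, (ENNReal.ofReal (5 / (2 ^ i.2.1 * m))) ^ 2 ≤ ENNReal.ofReal 300 := by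
  have e1 : ∑' i : Idx m, (ENNReal.ofReal (5 / (2 ^ i.2.1 * m))) ^ 2
      = ∑' (_ : Fin 3) (b : Σ k : ℕ, Fin m × Fin (2 * 2 ^ k * m)),
        (ENNReal.ofReal (5 / (2 ^ b.1 * m))) ^ 2 :=
    ENNReal.tsum_prod (f := fun (_ : Fin 3) (b : Σ k : ℕ, Fin m × Fin (2 * 2 ^ k * m)) =>
      (ENNReal.ofReal (5 / (2 ^ b.1 * m))) ^ 2)
  have e2 : ∑' (b : Σ k : ℕ, Fin m × Fin (2 * 2 ^ k * m)),
        (ENNReal.ofReal (5 / (2 ^ b.1 * m))) ^ 2 =
      ∑' (k : ℕ) (_ : Fin m × Fin (2 * 2 ^ k * m)), (ENNReal.ofReal (5 / (2 ^ k * m))) ^ 2 :=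
    ENNReal.tsum_sigma (f := fun (k : ℕ) (_ : Fin m × Fin (2 * 2 ^ k * m)) =>
      (ENNReal.ofReal (5 / (2 ^ k * m))) ^ 2)
  rw [e1, e2]
  simp only [tsum_fintype, Finset.sum_const, Finset.card_univ,
    Fintype.card_prod, Fintype.card_fin]
  have hm' : (0:ℝ) < m := by exact_mod_cast hm
  have hterm : ∀ k : ℕ, (m * (2 * 2 ^ k * m)) • (ENNReal.ofReal (5 / (2 ^ k * m))) ^ 2
      = ENNReal.ofReal (50 * (1/2) ^ k) := by
    intro k
    rw [nsmul_eq_mul, ← ENNReal.ofReal_pow (by positivity)]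
    have : ((m * (2 * 2 ^ k * m) : ℕ) : ENNReal) = ENNReal.ofReal (m * (2 * 2 ^ k * m)) := by
      rw [← ENNReal.ofReal_natCast]
      push_cast
      rfl
    rw [this, ← ENNReal.ofReal_mul (by positivity)]
    congr 1
    rw [one_div, inv_pow]
    field_simp
    norm_num
  simp only [hterm]
  rw [← ENNReal.ofReal_tsum_of_nonneg (fun k => by positivity)
    ((summable_geometric_of_lt_one (by norm_num) (by norm_num)).mul_left _)]
  rw [tsum_mul_left, tsum_geometric_of_lt_one (by norm_num) (by norm_num)]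
  rw [nsmul_eq_mul]
  have : ((3 : ℕ) : ENNReal) = ENNReal.ofReal 3 := by simp
  rw [this, ← ENNReal.ofReal_mul (by norm_num)]
  apply ENNReal.ofReal_le_ofReal
  norm_num

end Pool.Agent.H985.CoxA
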