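import Mathlib

set_option autoImplicit false

/-!
# The deletion method for families of 3-element and 4-element sets
-/

namespace Pool.Agent.H985.Deletion

open Finset

theorem card_const {α : Type*} [Fintype α] [DecidableEq α] (q : ℕ) (S : Finset α)
    (hS : S.Nonempty) :
    ((Finset.univ : Finset (α → Fin q)).filter (fun f => ∀ x ∈ S, ∀ y ∈ S, f x = f y)).card *
      q ^ (S.card - 1) ≤ q ^ Fintype.card α := by
  classical
  obtain ⟨s, hs⟩ := hS
  let T := S.erase s
  have h1 : ((Finset.univ : Finset (α → Fin q)).filter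
      (fun f => ∀ x ∈ S, ∀ y ∈ S, f x = f y)).card ≤ Fintype.card ((Tᶜ : Finset α) → Fin q) := by
    rw [← Finset.card_univ]
    refine Finset.card_le_card_of_injOn (fun f => fun x : (Tᶜ : Finset α) => f x)
      (fun _ _ => Finset.mem_coe.2 (Finset.mem_univ _)) ?_
    intro f hf g hg hfg
    have hf' := (Finset.mem_filter.1 (Finset.mem_coe.1 hf)).2
    have hg' := (Finset.mem_filter.1 (Finset.mem_coe.1 hg)).2
    have key : ∀ x, x ∉ T → f x = g x := fun x hx => congrFun hfg ⟨x, Finset.mem_compl.2 hx⟩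
    funext x
    by_cases hx : x ∈ T
    · have hxS := Finset.mem_of_mem_erase hx
      rw [hf' x hxS s hs, hg' x hxS s hs]
      exact key s (Finset.notMem_erase s S)
    · exact key x hx
  rw [Fintype.card_fun, Fintype.card_fin, Fintype.card_coe, Finset.card_compl,
    Finset.card_erase_of_mem hs] at h1
  calc _ ≤ q ^ (Fintype.card α - (S.card - 1)) * q ^ (S.card - 1) := Nat.mul_le_mul_right _ h1
    _ = q ^ Fintype.card α := by
      rw [← pow_add, Nat.sub_add_cancel]
      have := Finset.card_le_univ S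
      omega

theorem sum_mono {α : Type*} [Fintype α] [DecidableEq α] (q j : ℕ) (hj : 1 ≤ j)
    (Q : Finset (Finset α)) (hQ : ∀ S ∈ Q, S.card = j) :
    (∑ f : α → Fin q, (Q.filter (fun S => ∀ x ∈ S, ∀ y ∈ S, f x = f y)).card) * q ^ (j - 1) ≤
      Q.card * q ^ Fintype.card α := by
  classical
  have h1 : ∑ f : α → Fin q, (Q.filter (fun S => ∀ x ∈ S, ∀ y ∈ S, f x = f y)).card =
      ∑ S ∈ Q, ((Finset.univ : Finset (α → Fin q)).filter
        (fun f => ∀ x ∈ S, ∀ y ∈ S, f x = f y)).card :=
    Finset.sum_card_bipartiteAbove_eq_sum_card_bipartiteBelow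
      (fun (f : α → Fin q) (S : Finset α) => ∀ x ∈ S, ∀ y ∈ S, f x = f y)
  rw [h1, Finset.sum_mul]
  calc _ ≤ ∑ _S ∈ Q, q ^ Fintype.card α := by
        refine Finset.sum_le_sum fun S hS => ?_
        have h2 := card_const q S (Finset.card_pos.1 (by rw [hQ S hS]; omega))
        rwa [hQ S hS] at h2
    _ = _ := by rw [Finset.sum_const, smul_eq_mul]

theorem deletion {α : Type*} [Fintype α] [DecidableEq α] (q : ℕ) (hq : 1 ≤ q)
    (Q3 Q4 : Finset (Finset α)) (h3 : ∀ S ∈ Q3, S.card = 3) (h4 : ∀ S ∈ Q4, S.card = 4)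
    (c3 : 4 * Q3.card ≤ q ^ 2 * Fintype.card α) (c4 : 4 * Q4.card ≤ q ^ 3 * Fintype.card α) :
    ∃ B : Finset α, (∀ S ∈ Q3, ¬ S ⊆ B) ∧ (∀ S ∈ Q4, ¬ S ⊆ B) ∧
      Fintype.card α ≤ 2 * q * B.card := by
  classical
  rcases isEmpty_or_nonempty α with hemp | hnon
  · refine ⟨∅, ?_, ?_, ?_⟩
    · intro S hS h
      have := Finset.card_le_card h
      rw [h3 S hS] at this
      simp at this
    · intro S hS h
      have := Finset.card_le_card h
      rw [h4 S hS] at this
      simp at this
    · rw [Fintype.card_eq_zero]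
      exact Nat.zero_le _
  set N := Fintype.card α with hN
  let mono : (α → Fin q) → Finset α → Prop := fun f S => ∀ x ∈ S, ∀ y ∈ S, f x = f y
  have hs3 : 4 * ∑ f : α → Fin q, (Q3.filter (mono f)).card ≤ N * q ^ N := by
    have h := sum_mono q 3 (by norm_num) Q3 h3
    have h' : (4 * ∑ f : α → Fin q, (Q3.filter (mono f)).card) * q ^ 2 ≤ (N * q ^ N) * q ^ 2 := by
      calc (4 * ∑ f : α → Fin q, (Q3.filter (mono f)).card) * q ^ 2
          = 4 * ((∑ f : α → Fin q, (Q3.filter (mono f)).card) * q ^ 2) := by ring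
        _ ≤ 4 * (Q3.card * q ^ N) := Nat.mul_le_mul_left _ h
        _ = (4 * Q3.card) * q ^ N := by ring
        _ ≤ (q ^ 2 * N) * q ^ N := Nat.mul_le_mul_right _ c3
        _ = _ := by ring
    exact Nat.le_of_mul_le_mul_right h' (by positivity)
  have hs4 : 4 * ∑ f : α → Fin q, (Q4.filter (mono f)).card ≤ N * q ^ N := by
    have h := sum_mono q 4 (by norm_num) Q4 h4
    have h' : (4 * ∑ f : α → Fin q, (Q4.filter (mono f)).card) * q ^ 3 ≤ (N * q ^ N) * q ^ 3 := by
      calc (4 * ∑ f : α → Fin q, (Q4.filter (mono f)).card) * q ^ 3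
          = 4 * ((∑ f : α → Fin q, (Q4.filter (mono f)).card) * q ^ 3) := by ring
        _ ≤ 4 * (Q4.card * q ^ N) := Nat.mul_le_mul_left _ h
        _ = (4 * Q4.card) * q ^ N := by ring
        _ ≤ (q ^ 3 * N) * q ^ N := Nat.mul_le_mul_right _ c4
        _ = _ := by ring
    exact Nat.le_of_mul_le_mul_right h' (by positivity)
  have : Nonempty (Fin q) := ⟨⟨0, hq⟩⟩
  have hcardf : (Finset.univ : Finset (α → Fin q)).card = q ^ N := by
    rw [Finset.card_univ, Fintype.card_fun, Fintype.card_fin]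
  obtain ⟨f, -, hf⟩ : ∃ f ∈ (Finset.univ : Finset (α → Fin q)),
      2 * ((Q3.filter (mono f)).card + (Q4.filter (mono f)).card) ≤ N := by
    refine Finset.exists_le_of_sum_le Finset.univ_nonempty ?_
    rw [← Finset.mul_sum, Finset.sum_add_distrib, Finset.sum_const, hcardf, smul_eq_mul]
    have h5 : N * q ^ N = q ^ N * N := mul_comm _ _
    omega
  -- the bad sets
  let M : Finset (Finset α) := Q3.filter (mono f) ∪ Q4.filter (mono f)
  have hM : 2 * M.card ≤ N := by
    have := Finset.card_union_le (Q3.filter (mono f)) (Q4.filter (mono f))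
    have h6 : M.card ≤ (Q3.filter (mono f)).card + (Q4.filter (mono f)).card := this
    omega
  have hMne : ∀ S ∈ M, S.Nonempty := by
    intro S hS
    rcases Finset.mem_union.1 hS with h | h
    · exact Finset.card_pos.1 (by rw [h3 S (Finset.mem_filter.1 h).1]; norm_num)
    · exact Finset.card_pos.1 (by rw [h4 S (Finset.mem_filter.1 h).1]; norm_num)
  choose! r hr using hMne
  let C : Fin q → Finset α := fun i => Finset.univ.filter (fun x => f x = i)
  let D : Fin q → Finset (Finset α) := fun i => M.filter (fun S => f (r S) = i)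
  have hC : ∑ i, (C i).card = N := by
    rw [hN, ← Finset.card_univ]
    exact (Finset.card_eq_sum_card_fiberwise (fun x _ => Finset.mem_coe.2 (Finset.mem_univ (f x)))).symm
  have hD : ∑ i, (D i).card = M.card :=
    (Finset.card_eq_sum_card_fiberwise
      (fun S _ => Finset.mem_coe.2 (Finset.mem_univ (f (r S))))).symm
  obtain ⟨i, -, hi⟩ : ∃ i ∈ (Finset.univ : Finset (Fin q)),
      2 * q * (D i).card + N ≤ 2 * q * (C i).card := by
    refine Finset.exists_le_of_sum_le Finset.univ_nonempty ?_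
    rw [Finset.sum_add_distrib, ← Finset.mul_sum, ← Finset.mul_sum, hC, hD, Finset.sum_const,
      Finset.card_univ, Fintype.card_fin, smul_eq_mul]
    calc 2 * q * M.card + q * N = q * (2 * M.card) + q * N := by ring
      _ ≤ q * N + q * N := Nat.add_le_add_right (Nat.mul_le_mul_left _ hM) _
      _ = _ := by ring
  refine ⟨C i \ (D i).image r, ?_, ?_, ?_⟩
  · intro S hS hSB
    have hne : S.Nonempty := Finset.card_pos.1 (by rw [h3 S hS]; norm_num)
    have hmono : mono f S := by
      intro x hx y hy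
      have h1 := (Finset.mem_filter.1 (Finset.mem_sdiff.1 (hSB hx)).1).2
      have h2 := (Finset.mem_filter.1 (Finset.mem_sdiff.1 (hSB hy)).1).2
      rw [h1, h2]
    have hSM : S ∈ M := Finset.mem_union_left _ (Finset.mem_filter.2 ⟨hS, hmono⟩)
    have hrS := hr S hSM
    have h1 := (Finset.mem_filter.1 (Finset.mem_sdiff.1 (hSB hrS)).1).2
    exact (Finset.mem_sdiff.1 (hSB hrS)).2 (Finset.mem_image_of_mem r
      (Finset.mem_filter.2 ⟨hSM, h1⟩))
  · intro S hS hSB
    have hne : S.Nonempty := Finset.card_pos.1 (by rw [h4 S hS]; norm_num)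
    have hmono : mono f S := by
      intro x hx y hy
      have h1 := (Finset.mem_filter.1 (Finset.mem_sdiff.1 (hSB hx)).1).2
      have h2 := (Finset.mem_filter.1 (Finset.mem_sdiff.1 (hSB hy)).1).2
      rw [h1, h2]
    have hSM : S ∈ M := Finset.mem_union_right _ (Finset.mem_filter.2 ⟨hS, hmono⟩)
    have hrS := hr S hSM
    have h1 := (Finset.mem_filter.1 (Finset.mem_sdiff.1 (hSB hrS)).1).2
    exact (Finset.mem_sdiff.1 (hSB hrS)).2 (Finset.mem_image_of_mem r
      (Finset.mem_filter.2 ⟨hSM, h1⟩))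
  · have h1 : (C i).card ≤ (C i \ (D i).image r).card + ((D i).image r).card :=
      Finset.card_le_card_sdiff_add_card
    have h2 : ((D i).image r).card ≤ (D i).card := Finset.card_image_le
    have h3 : 2 * q * (C i).card ≤ 2 * q * (C i \ (D i).image r).card + 2 * q * (D i).card := by
      rw [← Nat.mul_add]
      exact Nat.mul_le_mul_left _ (by omega)
    omega

end Pool.Agent.H985.Deletion
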