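import Mathlib

set_option autoImplicit false

/-!
# Separating the faces of a convex body by covering its polar body

If the polar body of `K` with respect to the interior point `o` is covered by `N` translates
`t + int`, then `N` hyperplanes suffice to separate all faces of `K` strictly from `o`.
(The argument is the one of the starting file `MP_5e7226_co.AllConvexBodies`, for any covering.)
-/

namespace Pool.Agent.H985.Sep

open scoped InnerProductSpace
open Metric

variable {E : Type*} [NormedAddCommGroup E] [InnerProductSpace ℝ E] [FiniteDimensional ℝ E]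

/-- the polar body of `K` with respect to `o` -/
def polar (K : Set E) (o : E) : Set E := {v | ∀ y ∈ K, ⟪v, y - o⟫_ℝ ≤ 1}

omit [FiniteDimensional ℝ E] in
theorem convex_polar (K : Set E) (o : E) : Convex ℝ (polar K o) := by
  intro v hv w hw a b ha hb hab y hy
  rw [inner_add_left, real_inner_smul_left, real_inner_smul_left]
  nlinarith [hv y hy, hw y hy]

omit [FiniteDimensional ℝ E] in
theorem isClosed_polar (K : Set E) (o : E) : IsClosed (polar K o) := by
  have : polar K o = ⋂ y ∈ K, {v | ⟪v, y - o⟫_ℝ ≤ 1} := by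
    ext v; simp [polar]
  rw [this]
  refine isClosed_biInter fun y _ => isClosed_le ?_ continuous_const
  exact continuous_id.inner continuous_const

omit [FiniteDimensional ℝ E] in
theorem norm_le_of_mem_polar {K : Set E} {o : E} {r : ℝ} (hr : 0 < r)
    (hrK : closedBall o r ⊆ K) : ∀ v ∈ polar K o, ‖v‖ ≤ 1 / r := by
  intro v hv
  rcases eq_or_ne v 0 with rfl | hv0
  · simp; positivity
  have hn : 0 < ‖v‖ := norm_pos_iff.mpr hv0
  have hy : o + (r / ‖v‖) • v ∈ K := by
    apply hrK
    rw [mem_closedBall, dist_eq_norm, add_sub_cancel_left, norm_smul, Real.norm_eq_abs,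
      abs_of_pos (by positivity), div_mul_cancel₀ _ hn.ne']
  have h := hv _ hy
  rw [add_sub_cancel_left, real_inner_smul_right, real_inner_self_eq_norm_sq] at h
  rw [le_div_iff₀ hr]
  have e : r / ‖v‖ * ‖v‖ ^ 2 = ‖v‖ * r := by field_simp
  linarith

omit [InnerProductSpace ℝ E] [FiniteDimensional ℝ E] in
theorem exists_ball {K : Set E} {o : E} (ho : o ∈ interior K) :
    ∃ r > 0, closedBall o r ⊆ K := by
  obtain ⟨r, hr, h⟩ := Metric.isOpen_iff.mp isOpen_interior o ho
  exact ⟨r / 2, by positivity, (closedBall_subset_ball (by linarith)).trans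
    (h.trans interior_subset)⟩

theorem isCompact_polar {K : Set E} {o : E} (ho : o ∈ interior K) : IsCompact (polar K o) := by
  obtain ⟨r, hr, hrK⟩ := exists_ball ho
  refine Metric.isCompact_of_isClosed_isBounded (isClosed_polar K o) ?_
  refine (isBounded_iff_subset_closedBall 0).mpr ⟨1 / r, fun v hv => ?_⟩
  simpa using norm_le_of_mem_polar hr hrK v hv

omit [FiniteDimensional ℝ E] in
theorem interior_polar_nonempty {K : Set E} {o : E} (hKc : IsCompact K) (ho : o ∈ interior K) :
    (interior (polar K o)).Nonempty := by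
  obtain ⟨R, hR⟩ : ∃ R : ℝ, ∀ y ∈ K, ‖y - o‖ ≤ R := by
    obtain ⟨R, hR⟩ := hKc.isBounded.subset_closedBall o
    exact ⟨R, fun y hy => by simpa [dist_eq_norm] using hR hy⟩
  have hR0 : 0 ≤ R := (norm_nonneg _).trans (hR o (interior_subset ho))
  refine ⟨0, ?_⟩
  rw [mem_interior]
  refine ⟨ball 0 (1 / (R + 1)), ?_, isOpen_ball, by simp; positivity⟩
  intro v hv y hy
  rw [mem_ball_zero_iff] at hv
  calc ⟪v, y - o⟫_ℝ ≤ ‖v‖ * ‖y - o‖ := real_inner_le_norm _ _
    _ ≤ 1 / (R + 1) * R := by
        gcongr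
        exact hR y hy
    _ ≤ 1 := by
        rw [div_mul_eq_mul_div, one_mul, div_le_one (by positivity)]
        linarith

/-- The faces of `K` are separated from `o` by the hyperplanes with normal vectors `t`, if the
translates `t + int` cover the polar body. -/
theorem separate {K : Set E} {o : E} (ho : o ∈ interior K) (T : Finset E)
    (hT : polar K o ⊆ ⋃ t ∈ T, (fun x => t + x) '' interior (polar K o)) :
    ∃ H : Finset (E × ℝ), H.card ≤ T.card ∧ (∀ h ∈ H, h.1 ≠ 0) ∧
      ∀ u x₀ : E, u ≠ 0 → x₀ ∈ K → (∀ y ∈ K, ⟪u, y⟫_ℝ ≤ ⟪u, x₀⟫_ℝ) →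
        ∃ h ∈ H, ⟪h.1, o⟫_ℝ < h.2 ∧ ∀ x ∈ K, ⟪u, x⟫_ℝ = ⟪u, x₀⟫_ℝ → h.2 < ⟪h.1, x⟫_ℝ := by
  classical
  obtain ⟨r, hr, hrK⟩ := exists_ball ho
  have hPb := norm_le_of_mem_polar hr hrK
  have hPk := isCompact_polar ho
  -- a Lebesgue number
  obtain ⟨δ, hδ, hleb⟩ : ∃ δ > 0, ∀ v ∈ polar K o, ∃ t ∈ T,
      ball v δ ⊆ (fun x => t + x) '' interior (polar K o) := by
    have hop : ∀ t : T, IsOpen ((fun x => (t : E) + x) '' interior (polar K o)) :=
      fun t => (Homeomorph.addLeft (t : E)).isOpenMap _ isOpen_interior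
    have hcov : polar K o ⊆ ⋃ t : T, (fun x => (t : E) + x) '' interior (polar K o) := by
      intro v hv
      have h := hT hv
      simp only [Set.mem_iUnion] at h ⊢
      obtain ⟨t, ht, h⟩ := h
      exact ⟨⟨t, ht⟩, h⟩
    obtain ⟨δ, hδ, h⟩ := lebesgue_number_lemma_of_metric hPk hop hcov
    refine ⟨δ, hδ, fun v hv => ?_⟩
    obtain ⟨t, ht⟩ := h v hv
    exact ⟨t, t.2, ht⟩
  set ε : ℝ := δ / 2 * r with hε
  have hε0 : 0 < ε := by positivity
  refine ⟨(T.filter (fun t => t ≠ 0)).image (fun t => (t, ⟪t, o⟫_ℝ + ε / 2)), ?_, ?_, ?_⟩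
  · exact Finset.card_image_le.trans (Finset.card_filter_le _ _)
  · intro h hh
    rw [Finset.mem_image] at hh
    obtain ⟨t, ht, rfl⟩ := hh
    exact (Finset.mem_filter.mp ht).2
  · intro u x₀ hu hx₀ hmax
    have hun : 0 < ‖u‖ := norm_pos_iff.mpr hu
    -- the support function is positive
    have hpos : 0 < ⟪u, x₀ - o⟫_ℝ := by
      have hy : o + (r / ‖u‖) • u ∈ K := by
        apply hrK
        rw [mem_closedBall, dist_eq_norm, add_sub_cancel_left, norm_smul, Real.norm_eq_abs,
          abs_of_pos (by positivity), div_mul_cancel₀ _ hun.ne']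
      have h := hmax _ hy
      rw [inner_add_right, real_inner_smul_right, real_inner_self_eq_norm_sq] at h
      rw [inner_sub_right]
      have : 0 < r / ‖u‖ * ‖u‖ ^ 2 := by positivity
      linarith
    set c : ℝ := ⟪u, x₀ - o⟫_ℝ with hc
    have hvP : c⁻¹ • u ∈ polar K o := by
      intro y hy
      rw [real_inner_smul_left, inv_mul_le_iff₀ hpos, mul_one, hc, inner_sub_right,
        inner_sub_right]
      linarith [hmax y hy]
    obtain ⟨t, htT, ht⟩ := hleb _ hvP
    -- the key inequality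
    have key : ∀ x ∈ K, ⟪u, x⟫_ℝ = ⟪u, x₀⟫_ℝ → ε ≤ ⟪t, x - o⟫_ℝ := by
      intro x hx hxu
      have h1 : ⟪c⁻¹ • u, x - o⟫_ℝ = 1 := by
        rw [real_inner_smul_left, inner_sub_right, hxu, ← inner_sub_right, ← hc,
          inv_mul_cancel₀ hpos.ne']
      have h2 : r ≤ ‖x - o‖ := by
        have h3 := real_inner_le_norm (c⁻¹ • u) (x - o)
        rw [h1] at h3
        have h4 := hPb _ hvP
        have h5 : 1 ≤ 1 / r * ‖x - o‖ := h3.trans (by gcongr)
        rw [one_div, ← div_eq_inv_mul, le_div_iff₀ hr] at h5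
        linarith
      have hxn : 0 < ‖x - o‖ := hr.trans_le h2
      have hz : c⁻¹ • u + (δ / 2 / ‖x - o‖) • (x - o) ∈ ball (c⁻¹ • u) δ := by
        rw [mem_ball, dist_eq_norm, add_sub_cancel_left, norm_smul, Real.norm_eq_abs,
          abs_of_pos (by positivity), div_mul_cancel₀ _ hxn.ne']
        linarith
      obtain ⟨p, hp, hpe⟩ := ht hz
      have hp' : ⟪p, x - o⟫_ℝ ≤ 1 := interior_subset hp x hx
      have hpe' : p = c⁻¹ • u + (δ / 2 / ‖x - o‖) • (x - o) - t := by
        rw [← hpe]; simp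
      rw [hpe', inner_sub_left, inner_add_left, h1, real_inner_smul_left,
        real_inner_self_eq_norm_sq] at hp'
      have e : δ / 2 / ‖x - o‖ * ‖x - o‖ ^ 2 = δ / 2 * ‖x - o‖ := by field_simp
      rw [e] at hp'
      have : ε ≤ δ / 2 * ‖x - o‖ := by
        rw [hε]; gcongr
      linarith
    have ht0 : t ≠ 0 := by
      rintro rfl
      have h := key x₀ hx₀ rfl
      rw [inner_zero_left] at h
      linarith
    refine ⟨(t, ⟪t, o⟫_ℝ + ε / 2), Finset.mem_image_of_mem _ (Finset.mem_filter.mpr ⟨htT, ht0⟩),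
      by simp only; linarith, fun x hx hxu => ?_⟩
    have h := key x hx hxu
    rw [inner_sub_right] at h
    simp only
    linarith

end Pool.Agent.H985.Sep
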