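import Mathlib
import Pool.Agent.H985.Sep
import Pool.Agent.Results.MP_eba1ef_gt.PermutationSymmetric

set_option autoImplicit false

/-!
# MP_5e7226_co: bodies with central and permutation symmetry

Let `K` be a convex body in `ℝ^d`, `d ≥ 2`, and `o` an interior point of `K`. Assume that `K` is
symmetric about `o` and that for some basis `b` of `ℝ^d` every permutation of the basis vectors
defines a linear map (with `o` as the origin) which maps `K` into itself. Then `2 ^ d` hyperplanes
suffice to separate every face of `K` strictly from `o`.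

The polar body of `K` with respect to `o` has the same kind of symmetry with respect to the dual
basis, so by helper843's theorem (`MP_eba1ef_gt.PermutationSymmetric`) it is covered by `2 ^ d`
translates `t + int`; the vectors `t` are the normal vectors of the separating hyperplanes.
-/

namespace Pool.Agent.H985.PolarPermSym

open scoped InnerProductSpace
open Pool.Agent.H985.Sep

/-- the dual basis -/
theorem exists_dual {n : ℕ} (b : Module.Basis (Fin n) ℝ (EuclideanSpace ℝ (Fin n))) :
    ∃ b' : Module.Basis (Fin n) ℝ (EuclideanSpace ℝ (Fin n)),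
      ∀ v i, b'.repr v i = ⟪v, b i⟫_ℝ := by
  let L : EuclideanSpace ℝ (Fin n) →ₗ[ℝ] (Fin n → ℝ) :=
    { toFun := fun v i => ⟪v, b i⟫_ℝ
      map_add' := by
        intro v w
        funext i
        simp [inner_add_left]
      map_smul' := by
        intro c v
        funext i
        simp [real_inner_smul_left] }
  have hL : Function.Injective L := by
    intro v w hvw
    refine InnerProductSpace.ext_inner_right_basis b (fun i => ?_)
    exact congrFun hvw i
  have hd : Module.finrank ℝ (EuclideanSpace ℝ (Fin n)) = Module.finrank ℝ (Fin n → ℝ) := by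
    simp
  refine ⟨Module.Basis.ofEquivFun (L.linearEquivOfInjective hL hd), fun v i => ?_⟩
  rw [Module.Basis.ofEquivFun_repr_apply]
  rfl

/-- **Main theorem.** -/
theorem result (d : ℕ) (hd : 2 ≤ d) (K : Set (EuclideanSpace ℝ (Fin d)))
    (hKc : IsCompact K) (o : EuclideanSpace ℝ (Fin d)) (ho : o ∈ interior K)
    (hneg : ∀ v, o + v ∈ K → o - v ∈ K)
    (b : Module.Basis (Fin d) ℝ (EuclideanSpace ℝ (Fin d)))
    (hperm : ∀ σ : Equiv.Perm (Fin d), ∀ v, o + v ∈ K → o + ∑ i, b.repr v i • b (σ i) ∈ K) :
    ∃ H : Finset (EuclideanSpace ℝ (Fin d) × ℝ), H.card ≤ 2 ^ d ∧ (∀ h ∈ H, h.1 ≠ 0) ∧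
      ∀ u x₀ : EuclideanSpace ℝ (Fin d), u ≠ 0 → x₀ ∈ K → (∀ y ∈ K, ⟪u, y⟫_ℝ ≤ ⟪u, x₀⟫_ℝ) →
        ∃ h ∈ H, ⟪h.1, o⟫_ℝ < h.2 ∧ ∀ x ∈ K, ⟪u, x⟫_ℝ = ⟪u, x₀⟫_ℝ → h.2 < ⟪h.1, x⟫_ℝ := by
  obtain ⟨b', hb'⟩ := exists_dual b
  obtain ⟨T, hTc, hT⟩ := Pool.Agent.Results.MP_eba1ef_gt.PermutationSymmetric.result d hd
    (polar K o) (convex_polar K o) (isCompact_polar ho) (interior_polar_nonempty hKc ho)
    (by
      intro v hv y hy
      have h := hneg (y - o) (by rwa [add_sub_cancel])
      have h2 := hv _ h
      rw [show o - (y - o) - o = -(y - o) by abel, inner_neg_right] at h2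
      rw [inner_neg_left]
      exact h2)
    b'
    (by
      intro σ v hv y hy
      have h := hv _ (hperm σ⁻¹ (y - o) (by rwa [add_sub_cancel]))
      rw [add_sub_cancel_left, inner_sum] at h
      have e : ⟪∑ i, b'.repr v i • b' (σ i), y - o⟫_ℝ =
          ∑ i, ⟪v, b.repr (y - o) i • b (σ⁻¹ i)⟫_ℝ := by
        have e1 : y - o = ∑ k, b.repr (y - o) k • b k := (b.sum_repr (y - o)).symm
        conv_lhs => rw [e1]
        rw [inner_sum]
        refine Finset.sum_congr rfl fun k _ => ?_
        rw [real_inner_smul_right, real_inner_smul_right, ← hb', ← hb']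
        congr 1
        rw [map_sum, Finsupp.finsetSum_apply, Finset.sum_eq_single (σ⁻¹ k)]
        · simp
        · intro i _ hi
          have hne : σ i ≠ k := by
            rintro rfl
            simp at hi
          simp [hne]
        · simp
      rw [e]
      exact h)
  obtain ⟨H, hH, h1, h2⟩ := separate ho T hT
  exact ⟨H, hH.trans hTc, h1, h2⟩

end Pool.Agent.H985.PolarPermSym
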