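import Mathlib

set_option autoImplicit false

/-!
# Multiplicative energy of sets of integers with private prime factors

`nu p a` is the exponent of `p` in `a`. If every element `c` of a finite set `S` of nonzero
integers has a prime (in fact any number) `p` with `nu p c ≠ f p`, while `nu p a ≠ f p` for at most
`K` elements `a` of `S`, then `|S| ^ 2 ≤ 3 K |S S|`.
-/

namespace Pool.Agent.H985.SPPop

open Finset
open scoped Pointwise

/-- the exponent of `p` in `a` -/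
def nu (p : ℕ) (a : ℤ) : ℕ := a.natAbs.factorization p

theorem nu_mul (p : ℕ) {a b : ℤ} (ha : a ≠ 0) (hb : b ≠ 0) :
    nu p (a * b) = nu p a + nu p b := by
  unfold nu
  rw [Int.natAbs_mul, Nat.factorization_mul (Int.natAbs_ne_zero.2 ha) (Int.natAbs_ne_zero.2 hb)]
  rfl

theorem energy_le (S : Finset ℤ) (hS : ∀ a ∈ S, a ≠ 0) (f : ℕ → ℕ) (K : ℕ)
    (h : ∀ c ∈ S, ∃ p : ℕ, nu p c ≠ f p ∧ (S.filter (fun a => nu p a ≠ f p)).card ≤ K) :
    Finset.mulEnergy S S ≤ 3 * K * S.card ^ 2 := by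
  classical
  choose! P hP1 hP2 using h
  -- the special elements
  let Sc : ℤ → Finset ℤ := fun c => S.filter (fun a => nu (P c) a ≠ f (P c))
  let T : Finset (Σ _ : ℤ, ℤ × ℤ) := S.sigma (fun c => Sc c ×ˢ S)
  have hT : T.card ≤ K * S.card ^ 2 := by
    rw [Finset.card_sigma]
    calc ∑ c ∈ S, (Sc c ×ˢ S).card ≤ ∑ _c ∈ S, K * S.card := by
          refine Finset.sum_le_sum fun c hc => ?_
          rw [Finset.card_product]
          exact Nat.mul_le_mul_right _ (hP2 c hc)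
      _ = K * S.card ^ 2 := by
          rw [Finset.sum_const, smul_eq_mul]
          ring
  let Q : Finset ((ℤ × ℤ) × ℤ × ℤ) :=
    ((S ×ˢ S) ×ˢ S ×ˢ S).filter (fun x => x.1.1 * x.2.1 = x.1.2 * x.2.2)
  have hQ : Finset.mulEnergy S S = Q.card := rfl
  have hmem : ∀ x ∈ Q, x.1.1 ∈ S ∧ x.1.2 ∈ S ∧ x.2.1 ∈ S ∧ x.2.2 ∈ S ∧
      x.1.1 * x.2.1 = x.1.2 * x.2.2 := by
    intro x hx
    simp only [Q, Finset.mem_filter, Finset.mem_product] at hx
    exact ⟨hx.1.1.1, hx.1.1.2, hx.1.2.1, hx.1.2.2, hx.2⟩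
  -- three classes
  let Q1 := Q.filter (fun x => x.1.1 ∈ Sc x.1.2)
  let Q2 := Q.filter (fun x => x.2.1 ∈ Sc x.1.2)
  let Q3 := Q.filter (fun x => x.2.2 ∈ Sc x.1.2)
  have hcov : Q ⊆ Q1 ∪ Q2 ∪ Q3 := by
    intro x hx
    obtain ⟨h1, h2, h3, h4, h5⟩ := hmem x hx
    have h6 := congrArg (nu (P x.1.2)) h5
    rw [nu_mul _ (hS _ h1) (hS _ h3), nu_mul _ (hS _ h2) (hS _ h4)] at h6
    have h7 := hP1 x.1.2 h2
    simp only [Q1, Q2, Q3, Sc, Finset.mem_union, Finset.mem_filter]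
    by_cases c1 : nu (P x.1.2) x.1.1 = f (P x.1.2)
    · by_cases c2 : nu (P x.1.2) x.2.1 = f (P x.1.2)
      · right
        refine ⟨hx, h4, fun c3 => h7 ?_⟩
        omega
      · left; right
        exact ⟨hx, h3, c2⟩
    · left; left
      exact ⟨hx, h1, c1⟩
  have hq1 : Q1.card ≤ T.card := by
    refine Finset.card_le_card_of_injOn (fun x => ⟨x.1.2, x.1.1, x.2.1⟩) ?_ ?_
    · intro x hx
      have hx' := Finset.mem_filter.1 (Finset.mem_coe.1 hx)
      obtain ⟨h1, h2, h3, h4, h5⟩ := hmem x hx'.1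
      simp only [T, Finset.coe_sigma, Set.mem_sigma_iff, Finset.mem_coe, Finset.mem_product]
      exact ⟨h2, hx'.2, h3⟩
    · intro x hx y hy hxy
      have hx' := hmem x (Finset.mem_filter.1 (Finset.mem_coe.1 hx)).1
      have hy' := hmem y (Finset.mem_filter.1 (Finset.mem_coe.1 hy)).1
      simp only [Sigma.mk.injEq, heq_eq_eq, Prod.mk.injEq] at hxy
      obtain ⟨e1, e2, e3⟩ := hxy
      have h6 : x.2.2 = y.2.2 := by
        have h7 := hx'.2.2.2.2
        have h8 := hy'.2.2.2.2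
        rw [e1, e2, e3] at h7
        exact mul_left_cancel₀ (hS _ hy'.2.1) (h7.symm.trans h8)
      exact Prod.ext (Prod.ext e2 e1) (Prod.ext e3 h6)
  have hq2 : Q2.card ≤ T.card := by
    refine Finset.card_le_card_of_injOn (fun x => ⟨x.1.2, x.2.1, x.1.1⟩) ?_ ?_
    · intro x hx
      have hx' := Finset.mem_filter.1 (Finset.mem_coe.1 hx)
      obtain ⟨h1, h2, h3, h4, h5⟩ := hmem x hx'.1
      simp only [T, Finset.coe_sigma, Set.mem_sigma_iff, Finset.mem_coe, Finset.mem_product]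
      exact ⟨h2, hx'.2, h1⟩
    · intro x hx y hy hxy
      have hx' := hmem x (Finset.mem_filter.1 (Finset.mem_coe.1 hx)).1
      have hy' := hmem y (Finset.mem_filter.1 (Finset.mem_coe.1 hy)).1
      simp only [Sigma.mk.injEq, heq_eq_eq, Prod.mk.injEq] at hxy
      obtain ⟨e1, e2, e3⟩ := hxy
      have h6 : x.2.2 = y.2.2 := by
        have h7 := hx'.2.2.2.2
        have h8 := hy'.2.2.2.2
        rw [e1, e2, e3] at h7
        exact mul_left_cancel₀ (hS _ hy'.2.1) (h7.symm.trans h8)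
      exact Prod.ext (Prod.ext e3 e1) (Prod.ext e2 h6)
  have hq3 : Q3.card ≤ T.card := by
    refine Finset.card_le_card_of_injOn (fun x => ⟨x.1.2, x.2.2, x.1.1⟩) ?_ ?_
    · intro x hx
      have hx' := Finset.mem_filter.1 (Finset.mem_coe.1 hx)
      obtain ⟨h1, h2, h3, h4, h5⟩ := hmem x hx'.1
      simp only [T, Finset.coe_sigma, Set.mem_sigma_iff, Finset.mem_coe, Finset.mem_product]
      exact ⟨h2, hx'.2, h1⟩
    · intro x hx y hy hxy
      have hx' := hmem x (Finset.mem_filter.1 (Finset.mem_coe.1 hx)).1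
      have hy' := hmem y (Finset.mem_filter.1 (Finset.mem_coe.1 hy)).1
      simp only [Sigma.mk.injEq, heq_eq_eq, Prod.mk.injEq] at hxy
      obtain ⟨e1, e2, e3⟩ := hxy
      have h6 : x.2.1 = y.2.1 := by
        have h7 := hx'.2.2.2.2
        have h8 := hy'.2.2.2.2
        rw [e1, e2, e3] at h7
        exact mul_left_cancel₀ (hS _ hy'.1) (h7.trans h8.symm)
      exact Prod.ext (Prod.ext e3 e1) (Prod.ext h6 e2)
  rw [hQ]
  calc Q.card ≤ (Q1 ∪ Q2 ∪ Q3).card := Finset.card_le_card hcov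
    _ ≤ Q1.card + Q2.card + Q3.card :=
        (Finset.card_union_le _ _).trans (Nat.add_le_add_right (Finset.card_union_le _ _) _)
    _ ≤ T.card + T.card + T.card := by omega
    _ ≤ K * S.card ^ 2 + K * S.card ^ 2 + K * S.card ^ 2 := by omega
    _ = 3 * K * S.card ^ 2 := by ring

theorem card_sq_le (S : Finset ℤ) (hS : ∀ a ∈ S, a ≠ 0) (f : ℕ → ℕ) (K : ℕ)
    (h : ∀ c ∈ S, ∃ p : ℕ, nu p c ≠ f p ∧ (S.filter (fun a => nu p a ≠ f p)).card ≤ K) :
    S.card ^ 2 ≤ 3 * K * (S * S).card := by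
  rcases S.eq_empty_or_nonempty with h0 | h0
  · simp [h0]
  have h1 := Finset.le_card_mul_mul_mulEnergy S S
  have h2 := energy_le S hS f K h
  have h3 : S.card ^ 2 * S.card ^ 2 ≤ (3 * K * (S * S).card) * S.card ^ 2 := by
    calc S.card ^ 2 * S.card ^ 2 ≤ (S * S).card * Finset.mulEnergy S S := h1
      _ ≤ (S * S).card * (3 * K * S.card ^ 2) := Nat.mul_le_mul_left _ h2
      _ = _ := by ring
  exact Nat.le_of_mul_le_mul_right h3 (by
    have := h0.card_pos
    positivity)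

end Pool.Agent.H985.SPPop
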