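import Mathlib
import Pool.Agent.H985.SPPop

set_option autoImplicit false

/-!
# Products of `k` elements of a set of integers with unpopular primes

`nu p a` is the exponent of `p` in `a`. Let `S` be a finite set of nonzero integers such that for
every `c` in `S` there are `p` and `e` with `nu p c ≠ e`, while `nu p a ≠ e` for at most `K`
elements `a` of `S`. Then `S` contains about `|S| / (2 K)` elements with primes of their own, and at
least half of the elements of `S` avoid these primes, which gives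
`|S ^ k| ≥ |S| / 2 * (|S| / (8 k K)) ^ (k - 1)`.
-/

namespace Pool.Agent.H985.SPPopK

open Finset
open Pool.Agent.H985.SPPop

/-- A reflexive relation with all out-degrees at most `K` on a finite set `S` has an independent
set of size at least `|S| / (2 K)`. -/
theorem exists_indep {α : Type*} [DecidableEq α] (R : α → α → Prop) [DecidableRel R] (K : ℕ)
    (S : Finset α) (h : ∀ c ∈ S, (S.filter (fun a => R c a)).card ≤ K) (hr : ∀ c ∈ S, R c c) :
    ∃ I ⊆ S, (∀ c ∈ I, ∀ a ∈ I, a ≠ c → ¬ R c a) ∧ S.card ≤ 2 * K * I.card := by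
  induction S using Finset.strongInduction with
  | H S ih =>
    rcases S.eq_empty_or_nonempty with rfl | hne
    · exact ⟨∅, subset_rfl, by simp, by simp⟩
    -- an element with small in-degree
    have hsum : ∑ a ∈ S, (S.filter (fun c => R c a)).card ≤ ∑ _a ∈ S, K := by
      calc ∑ a ∈ S, (S.filter (fun c => R c a)).card
          = ∑ c ∈ S, (S.filter (fun a => R c a)).card :=
            (Finset.sum_card_bipartiteAbove_eq_sum_card_bipartiteBelow R).symm
        _ ≤ ∑ _c ∈ S, K := Finset.sum_le_sum fun c hc => h c hc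
    obtain ⟨a, haS, ha⟩ := Finset.exists_le_of_sum_le hne hsum
    let S' := S.filter (fun b => ¬ R a b ∧ ¬ R b a)
    have hS'S : S' ⊆ S := Finset.filter_subset _ _
    have haS' : a ∉ S' := by
      intro hmem
      exact (Finset.mem_filter.1 hmem).2.1 (hr a haS)
    have hss : S' ⊂ S := by
      refine Finset.ssubset_iff_subset_ne.2 ⟨hS'S, fun heq => haS' ?_⟩
      rw [heq]
      exact haS
    obtain ⟨I, hIS, hI, hcard⟩ := ih S' hss
      (fun c hc => (Finset.card_le_card (Finset.filter_subset_filter _ hS'S)).trans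
        (h c (hS'S hc))) (fun c hc => hr c (hS'S hc))
    have haI : a ∉ I := fun hmem => haS' (hIS hmem)
    refine ⟨insert a I, ?_, ?_, ?_⟩
    · exact Finset.insert_subset haS (hIS.trans hS'S)
    · intro c hc b hb hbc
      rcases Finset.mem_insert.1 hc with rfl | hc'
      · rcases Finset.mem_insert.1 hb with rfl | hb'
        · exact absurd rfl hbc
        · exact (Finset.mem_filter.1 (hIS hb')).2.1
      · rcases Finset.mem_insert.1 hb with rfl | hb'
        · exact (Finset.mem_filter.1 (hIS hc')).2.2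
        · exact hI c hc' b hb' hbc
    · have hcov : S ⊆ (S' ∪ S.filter (fun b => R a b)) ∪ S.filter (fun b => R b a) := by
        intro b hb
        simp only [S', Finset.mem_union, Finset.mem_filter]
        tauto
      have h1 := Finset.card_le_card hcov
      have h2 := Finset.card_union_le (S' ∪ S.filter (fun b => R a b)) (S.filter (fun b => R b a))
      have h3 := Finset.card_union_le S' (S.filter (fun b => R a b))
      have h4 := h a haS
      rw [Finset.card_insert_of_notMem haI]
      have h5 : 2 * K * (I.card + 1) = 2 * K * I.card + 2 * K := by ring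
      omega

theorem nu_prod (p : ℕ) (X : Finset ℤ) (hX : ∀ a ∈ X, a ≠ 0) :
    nu p (∏ a ∈ X, a) = ∑ a ∈ X, nu p a := by
  classical
  induction X using Finset.induction_on with
  | empty => simp [nu]
  | insert a X ha ih =>
    rw [Finset.prod_insert ha, Finset.sum_insert ha, nu_mul]
    · rw [ih fun b hb => hX b (Finset.mem_insert_of_mem hb)]
    · exact hX a (Finset.mem_insert_self _ _)
    · exact Finset.prod_ne_zero_iff.2 fun b hb => hX b (Finset.mem_insert_of_mem hb)

/-- If the elements of `J` have primes of their own which the elements of `T` avoid, then the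
products `s * ∏ X` (`s` in `T`, `X` a `j`-element subset of `J`) are pairwise distinct. -/
theorem mul_prod_injOn (J T : Finset ℤ) (hJ : ∀ a ∈ J, a ≠ 0) (hT : ∀ a ∈ T, a ≠ 0)
    (P e : ℤ → ℕ) (h1 : ∀ c ∈ J, nu (P c) c ≠ e c)
    (h2 : ∀ c ∈ J, ∀ a ∈ J, a ≠ c → nu (P c) a = e c)
    (h3 : ∀ c ∈ J, ∀ a ∈ T, nu (P c) a = e c) (j : ℕ) :
    Set.InjOn (fun x : ℤ × Finset ℤ => x.1 * ∏ a ∈ x.2, a)
      (T ×ˢ J.powersetCard j : Finset (ℤ × Finset ℤ)) := by
  classical
  have hprod : ∀ X ∈ J.powersetCard j, ∏ a ∈ X, a ≠ 0 := fun X hX =>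
    Finset.prod_ne_zero_iff.2 fun b hb => hJ b ((Finset.mem_powersetCard.1 hX).1 hb)
  -- `X` can be recovered from the product
  have key : ∀ s ∈ T, ∀ X ∈ J.powersetCard j, ∀ c ∈ J,
      (c ∈ X ↔ nu (P c) (s * ∏ a ∈ X, a) ≠ (j + 1) * e c) := by
    intro s hs X hX c hc
    obtain ⟨hXJ, hXj⟩ := Finset.mem_powersetCard.1 hX
    rw [nu_mul _ (hT s hs) (hprod X hX), nu_prod _ X (fun a ha => hJ a (hXJ ha)), h3 c hc s hs]
    by_cases hcX : c ∈ X
    · have h4 : ∑ a ∈ X, nu (P c) a = nu (P c) c + (j - 1) * e c := by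
        rw [← Finset.add_sum_erase X _ hcX]
        congr 1
        rw [Finset.sum_congr rfl (g := fun _ => e c) fun a ha =>
          h2 c hc a (hXJ (Finset.mem_of_mem_erase ha)) (Finset.ne_of_mem_erase ha),
          Finset.sum_const, smul_eq_mul, Finset.card_erase_of_mem hcX, hXj]
      have hj : 1 ≤ j := by
        rw [← hXj]
        exact Finset.card_pos.2 ⟨c, hcX⟩
      have h5 : (j + 1) * e c = e c + (e c + (j - 1) * e c) := by
        obtain ⟨i, rfl⟩ : ∃ i, j = i + 1 := ⟨j - 1, by omega⟩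
        rw [Nat.add_sub_cancel]
        ring
      have h6 := h1 c hc
      rw [h4, h5]
      simp only [hcX, true_iff]
      intro h7
      exact h6 (Nat.add_right_cancel (Nat.add_left_cancel h7))
    · have h4 : ∑ a ∈ X, nu (P c) a = j * e c := by
        rw [Finset.sum_congr rfl (g := fun _ => e c) fun a ha =>
          h2 c hc a (hXJ ha) (fun h => hcX (h ▸ ha)), Finset.sum_const, smul_eq_mul, hXj]
      have h5 : (j + 1) * e c = e c + j * e c := by ring
      simp [hcX, h4, h5]
  rintro ⟨s, X⟩ hx ⟨t, Y⟩ hy hxy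
  obtain ⟨hs, hX⟩ := Finset.mem_product.1 (Finset.mem_coe.1 hx)
  obtain ⟨ht, hY⟩ := Finset.mem_product.1 (Finset.mem_coe.1 hy)
  simp only at hs hX ht hY hxy
  have hXJ := (Finset.mem_powersetCard.1 hX).1
  have hYJ := (Finset.mem_powersetCard.1 hY).1
  have hXY : X = Y := by
    ext c
    constructor
    · intro hc
      have h4 := (key s hs X hX c (hXJ hc)).1 hc
      rw [hxy] at h4
      exact (key t ht Y hY c (hXJ hc)).2 h4
    · intro hc
      have h4 := (key t ht Y hY c (hYJ hc)).1 hc
      rw [← hxy] at h4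
      exact (key s hs X hX c (hYJ hc)).2 h4
  subst hXY
  have h4 := mul_right_cancel₀ (hprod X hX) hxy
  rw [h4]

/-- a product `s * ∏ X` is a `(j + 1)`-fold product -/
theorem mem_prods (A X : Finset ℤ) (s : ℤ) (hs : s ∈ A) (hX : X ⊆ A) (j : ℕ) (hXj : X.card = j) :
    s * ∏ a ∈ X, a ∈ (Fintype.piFinset (fun _ : Fin (j + 1) => A)).image (fun g => ∏ i, g i) := by
  classical
  let e := X.equivFinOfCardEq hXj
  refine Finset.mem_image.2 ⟨Fin.cons s (fun i => ((e.symm i : X) : ℤ)), ?_, ?_⟩
  · rw [Fintype.mem_piFinset]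
    intro i
    refine Fin.cases ?_ (fun i => ?_) i
    · simpa using hs
    · simpa using hX (e.symm i).2
  · rw [Fin.prod_cons, Equiv.prod_comp e.symm (fun a : X => (a : ℤ)),
      Finset.prod_coe_sort X (fun a => a)]

/-- there are at least `|S|` products of `j + 1` elements of a set containing `S` -/
theorem card_le_prods (A S : Finset ℤ) (hSA : S ⊆ A) (hS : ∀ a ∈ S, a ≠ 0) (hne : S.Nonempty)
    (j : ℕ) : S.card ≤
      ((Fintype.piFinset (fun _ : Fin (j + 1) => A)).image (fun g => ∏ i, g i)).card := by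
  classical
  obtain ⟨b, hb⟩ := hne
  refine Finset.card_le_card_of_injOn (fun a => a * b ^ j) ?_ ?_
  · intro a ha
    refine Finset.mem_coe.2 (Finset.mem_image.2 ⟨Fin.cons a (fun _ => b), ?_, ?_⟩)
    · rw [Fintype.mem_piFinset]
      intro i
      refine Fin.cases ?_ (fun i => ?_) i
      · simpa using hSA (Finset.mem_coe.1 ha)
      · simpa using hSA hb
    · rw [Fin.prod_cons]
      simp
  · intro a _ c _ hac
    exact mul_right_cancel₀ (pow_ne_zero j (hS b hb)) hac

/-- lower bound for the number of `k`-fold products of a set containing a set `S` with unpopular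
primes -/
theorem pow_le (A S : Finset ℤ) (hSA : S ⊆ A) (hS : ∀ a ∈ S, a ≠ 0) (hne : S.Nonempty)
    (K : ℕ) (hK : 1 ≤ K)
    (h : ∀ c ∈ S, ∃ p e : ℕ, nu p c ≠ e ∧ (S.filter (fun a => nu p a ≠ e)).card ≤ K)
    (k : ℕ) (hk : 1 ≤ k) :
    (S.card : ℝ) / 2 * ((S.card : ℝ) / (8 * k * K)) ^ (k - 1) ≤
      (((Fintype.piFinset (fun _ : Fin k => A)).image (fun g => ∏ i, g i)).card : ℝ) := by
  classical
  obtain ⟨j, rfl⟩ : ∃ j, k = j + 1 := ⟨k - 1, by omega⟩
  rw [Nat.add_sub_cancel]
  have hKr : (1 : ℝ) ≤ K := by exact_mod_cast hK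
  have hjr : (1 : ℝ) ≤ ((j + 1 : ℕ) : ℝ) := by exact_mod_cast hk
  set t := S.card / (2 * K) with htd
  have ht1 : S.card < 2 * K * (t + 1) := Nat.lt_mul_div_succ _ (by omega)
  have ht2 : 2 * K * t ≤ S.card := Nat.mul_div_le _ _
  by_cases hc : t ≤ 2 * j
  · -- few elements
    have h1 : (S.card : ℝ) / (8 * ((j + 1 : ℕ) : ℝ) * K) ≤ 1 := by
      rw [div_le_one (by positivity)]
      have h2 : S.card ≤ 8 * (j + 1) * K := by
        calc S.card ≤ 2 * K * (t + 1) := ht1.le
          _ ≤ 2 * K * (4 * (j + 1)) := Nat.mul_le_mul_left _ (by omega)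
          _ = _ := by ring
      exact_mod_cast h2
    have h2 : ((S.card : ℝ) / (8 * ((j + 1 : ℕ) : ℝ) * K)) ^ j ≤ 1 :=
      pow_le_one₀ (by positivity) h1
    have h3 : (S.card : ℝ) ≤ (((Fintype.piFinset (fun _ : Fin (j + 1) => A)).image
        (fun g => ∏ i, g i)).card : ℝ) := by
      exact_mod_cast card_le_prods A S hSA hS hne j
    have h4 : (0 : ℝ) ≤ S.card := by positivity
    calc (S.card : ℝ) / 2 * ((S.card : ℝ) / (8 * ((j + 1 : ℕ) : ℝ) * K)) ^ j
        ≤ (S.card : ℝ) / 2 * 1 := mul_le_mul_of_nonneg_left h2 (by positivity)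
      _ ≤ S.card := by linarith
      _ ≤ _ := h3
  · -- many elements
    choose! P e hP1 hP2 using h
    obtain ⟨I, hIS, hI, hcard⟩ := exists_indep (fun c a => nu (P c) a ≠ e c) K S
      (fun c hc => hP2 c hc) (fun c hc => hP1 c hc)
    have htI : t ≤ I.card := Nat.div_le_of_le_mul hcard
    obtain ⟨J, hJI, hJt⟩ := Finset.exists_subset_card_eq htI
    have hJS : J ⊆ S := hJI.trans hIS
    let T := S.filter (fun s => ∀ c ∈ J, nu (P c) s = e c)
    have hTS : T ⊆ S := Finset.filter_subset _ _
    have hTcard : S.card ≤ 2 * T.card := by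
      have hcov : S ⊆ T ∪ J.biUnion (fun c => S.filter (fun a => nu (P c) a ≠ e c)) := by
        intro s hs
        by_cases hsT : ∀ c ∈ J, nu (P c) s = e c
        · exact Finset.mem_union_left _ (Finset.mem_filter.2 ⟨hs, hsT⟩)
        · push Not at hsT
          obtain ⟨c, hcJ, hne⟩ := hsT
          exact Finset.mem_union_right _ (Finset.mem_biUnion.2
            ⟨c, hcJ, Finset.mem_filter.2 ⟨hs, hne⟩⟩)
      have h1 := Finset.card_le_card hcov
      have h2 := Finset.card_union_le T
        (J.biUnion (fun c => S.filter (fun a => nu (P c) a ≠ e c)))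
      have h3 : (J.biUnion (fun c => S.filter (fun a => nu (P c) a ≠ e c))).card ≤ J.card * K :=
        Finset.card_biUnion_le_card_mul _ _ _ (fun c hc => hP2 c (hJS hc))
      rw [hJt] at h3
      have h4 : 2 * (t * K) = 2 * K * t := by ring
      omega
    have hinj := mul_prod_injOn J T (fun a ha => hS a (hJS ha)) (fun a ha => hS a (hTS ha)) P e
      (fun c hc => hP1 c (hJS hc))
      (fun c hc a ha hac => not_not.1 (hI c (hJI hc) a (hJI ha) hac))
      (fun c hc a ha => (Finset.mem_filter.1 ha).2 c hc) j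
    have hcount : T.card * t.choose j ≤
        ((Fintype.piFinset (fun _ : Fin (j + 1) => A)).image (fun g => ∏ i, g i)).card := by
      have h1 : (T ×ˢ J.powersetCard j).card = T.card * t.choose j := by
        rw [Finset.card_product, Finset.card_powersetCard, hJt]
      rw [← h1, ← Finset.card_image_of_injOn hinj]
      refine Finset.card_le_card ?_
      intro z hz
      obtain ⟨⟨s, X⟩, hx, rfl⟩ := Finset.mem_image.1 hz
      obtain ⟨hs, hX⟩ := Finset.mem_product.1 hx
      simp only at hs hX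
      obtain ⟨hXJ, hXj⟩ := Finset.mem_powersetCard.1 hX
      exact mem_prods A X s (hSA (hTS hs)) ((hXJ.trans hJS).trans hSA) j hXj
    have h1 : (S.card : ℝ) / (8 * ((j + 1 : ℕ) : ℝ) * K) ≤ (t : ℝ) / (2 * ((j + 1 : ℕ) : ℝ)) := by
      rw [div_le_div_iff₀ (by positivity) (by positivity)]
      have h2 : S.card ≤ 4 * K * t := by
        have h3 : t + 1 ≤ 2 * t := by omega
        calc S.card ≤ 2 * K * (t + 1) := ht1.le
          _ ≤ 2 * K * (2 * t) := Nat.mul_le_mul_left _ h3
          _ = _ := by ring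
      have h3 : (S.card : ℝ) ≤ 4 * K * t := by exact_mod_cast h2
      calc (S.card : ℝ) * (2 * ((j + 1 : ℕ) : ℝ)) ≤ (4 * K * t) * (2 * ((j + 1 : ℕ) : ℝ)) :=
            mul_le_mul_of_nonneg_right h3 (by positivity)
        _ = _ := by ring
    have h2 : ((t : ℝ) / (2 * ((j + 1 : ℕ) : ℝ))) ^ j ≤ (t.choose j : ℝ) := by
      have h3 : (((t + 1 - j : ℕ) : ℝ) ^ j) / (j.factorial : ℝ) ≤ (t.choose j : ℝ) :=
        Nat.pow_le_choose j t
      have h4 : ((t : ℝ) / 2) ≤ ((t + 1 - j : ℕ) : ℝ) := by
        have h5 : t ≤ 2 * (t + 1 - j) := by omega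
        have h6 : (t : ℝ) ≤ 2 * ((t + 1 - j : ℕ) : ℝ) := by exact_mod_cast h5
        linarith
      have h5 : (j.factorial : ℝ) ≤ ((j + 1 : ℕ) : ℝ) ^ j := by
        have h6 : j.factorial ≤ (j + 1) ^ j :=
          (Nat.factorial_le_pow j).trans (Nat.pow_le_pow_left (by omega) j)
        exact_mod_cast h6
      calc ((t : ℝ) / (2 * ((j + 1 : ℕ) : ℝ))) ^ j
          = ((t : ℝ) / 2) ^ j / (((j + 1 : ℕ) : ℝ)) ^ j := by
            rw [← div_pow, div_div]
        _ ≤ (((t + 1 - j : ℕ) : ℝ) ^ j) / (j.factorial : ℝ) := by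
            refine div_le_div₀ (by positivity) (pow_le_pow_left₀ (by positivity) h4 j)
              (by positivity) h5
        _ ≤ _ := h3
    have h3 : (S.card : ℝ) / 2 ≤ T.card := by
      have h4 : (S.card : ℝ) ≤ 2 * T.card := by exact_mod_cast hTcard
      linarith
    calc (S.card : ℝ) / 2 * ((S.card : ℝ) / (8 * ((j + 1 : ℕ) : ℝ) * K)) ^ j
        ≤ (T.card : ℝ) * (t.choose j : ℝ) :=
          mul_le_mul h3 ((pow_le_pow_left₀ (by positivity) h1 j).trans h2) (by positivity)
            (by positivity)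
      _ ≤ _ := by exact_mod_cast hcount

end Pool.Agent.H985.SPPopK
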